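import Pool.Agent.H1.ZU.Ker
import Pool.Agent.H2.ZU.FLOOR
import Pool.Agent.H23.ZU.HALF

/-! Analysis of the root squaring steps. -/

open Metric

namespace Pool.H1.ZU

/-- the real Laurent polynomial with coefficient list `l`, centre index `d` -/
noncomputable def T (d : ℕ) (l : List ℤ) (z : ℂ) : ℝ := ((z⁻¹) ^ d * evL l z).re

/-- its logarithmic mean -/
noncomputable def J (d : ℕ) (l : List ℤ) : ℝ :=
  Real.circleAverage (fun z => Real.log (T d l z)) 0 1

/-- positive on the circle -/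
def Pos (d : ℕ) (l : List ℤ) : Prop := ∀ z : ℂ, ‖z‖ = 1 → 0 < T d l z

theorem evL_get (z : ℂ) : ∀ l : List ℤ,
    evL l z = ∑ j : Fin l.length, (l.get j : ℂ) * z ^ (j : ℕ)
  | [] => by simp
  | a :: l => by
    rw [evL_cons, evL_get z l]
    change _ = ∑ j : Fin (l.length + 1), ((a :: l).get j : ℂ) * z ^ (j : ℕ)
    rw [Fin.sum_univ_succ, Finset.mul_sum]
    congr 1
    · simp
    · refine Finset.sum_congr rfl fun j _ => ?_
      simp only [List.get_eq_getElem, Fin.val_succ, List.getElem_cons_succ]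
      ring

theorem norm_inv_eq {z : ℂ} (hz : ‖z‖ = 1) : z ≠ 0 := by
  rintro rfl; simp at hz

theorem conj_eq_inv {z : ℂ} (hz : ‖z‖ = 1) : (starRingEnd ℂ) z = z⁻¹ := by
  rw [Complex.inv_def, Complex.normSq_eq_norm_sq, hz]; simp

theorem conj_evL (z : ℂ) : ∀ l : List ℤ, (starRingEnd ℂ) (evL l z) = evL l ((starRingEnd ℂ) z)
  | [] => by simp
  | a :: l => by
    rw [evL_cons, evL_cons, map_add, map_mul, conj_evL z l]; simp

theorem evL_reverse {K : Type*} [Field K] (x : K) (hx : x ≠ 0) : ∀ l : List ℤ,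
    x * evL l.reverse x = x ^ l.length * evL l (x⁻¹)
  | [] => by simp
  | a :: l => by
    have h := evL_reverse x hx l
    rw [List.reverse_cons, evL_append, mul_add, h, List.length_reverse, evL_cons, List.length_cons]
    simp only [evL_cons, evL_nil, mul_zero, add_zero]
    field_simp
    ring

/-- `z ^ (n - 1)` times the square of the absolute value -/
theorem evL_mul_reverse {z : ℂ} (hz : ‖z‖ = 1) (l : List ℤ) (n : ℕ) (hl : l.length = n + 1) :
    evL l z * evL l.reverse z = z ^ n * ((‖evL l z‖ ^ 2 : ℝ) : ℂ) := by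
  have h0 := norm_inv_eq hz
  have h1 := evL_reverse z h0 l
  rw [hl, pow_succ] at h1
  have h2 : evL l.reverse z = z ^ n * (starRingEnd ℂ) (evL l z) := by
    rw [conj_evL, conj_eq_inv hz]
    have : z * evL l.reverse z = z * (z ^ n * evL l z⁻¹) := by rw [h1]; ring
    exact mul_left_cancel₀ h0 this
  have h3 : evL l z * (starRingEnd ℂ) (evL l z) = ((‖evL l z‖ ^ 2 : ℝ) : ℂ) := by
    rw [Complex.mul_conj, Complex.normSq_eq_norm_sq]
  rw [h2, ← h3]; ring

theorem T_real {d : ℕ} {l : List ℤ} (hl : l.length = 2 * d + 1) (hs : l.reverse = l) {z : ℂ}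
    (hz : ‖z‖ = 1) : ((T d l z : ℝ) : ℂ) = (z⁻¹) ^ d * evL l z := by
  have h0 := norm_inv_eq hz
  have h1 := evL_reverse z h0 l
  rw [hs, hl] at h1
  have h2 : evL l z = z ^ (2 * d) * evL l z⁻¹ := by
    have : z * evL l z = z * (z ^ (2 * d) * evL l z⁻¹) := by rw [h1]; ring
    exact mul_left_cancel₀ h0 this
  have h3 : (starRingEnd ℂ) ((z⁻¹) ^ d * evL l z) = (z⁻¹) ^ d * evL l z := by
    rw [map_mul, map_pow, conj_evL, map_inv₀, conj_eq_inv hz, inv_inv, h2]
    rw [show 2 * d = d + d by ring, pow_add]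
    have : (z⁻¹) ^ d * z ^ d = 1 := by rw [← mul_pow, inv_mul_cancel₀ h0, one_pow]
    linear_combination (-(z ^ d * evL l z⁻¹)) * this
  rw [T]
  exact Complex.conj_eq_iff_re.mp h3

theorem evL_cont (l : List ℤ) : Continuous (fun z : ℂ => evL l z) := by
  induction l with
  | nil => simpa using continuous_const
  | cons a l ih =>
    simp only [evL_cons]
    exact continuous_const.add (continuous_id.mul ih)

theorem T_cont (d : ℕ) (l : List ℤ) : ContinuousOn (T d l) (sphere 0 1) := by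
  have h1 : ContinuousOn (fun z : ℂ => z⁻¹) (sphere (0 : ℂ) 1) := by
    intro z hz
    have : z ≠ 0 := norm_inv_eq (by simpa using hz)
    exact (continuousAt_inv₀ this).continuousWithinAt
  exact Complex.continuous_re.comp_continuousOn ((h1.pow d).mul (evL_cont l).continuousOn)

/-- one exact step -/
theorem step_exact {d : ℕ} (hd : Even d) {l r : List ℤ} (hl : l.length = 2 * d + 1)
    (hs : l.reverse = l) (hr : ∀ z : ℂ, evL r z = evL (evens l) z ^ 2 - z * evL (odds l) z ^ 2)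
    (hp : Pos d l) : Pos d r ∧ 2 * J d l = J d r := by
  have hmul : ∀ z : ℂ, ‖z‖ = 1 → T d r (z ^ 2) = T d l z * T d l (-z) := by
    intro z hz
    have hz' : ‖-z‖ = 1 := by rw [norm_neg, hz]
    have e1 : ((T d l z * T d l (-z) : ℝ) : ℂ) = ((z ^ 2)⁻¹) ^ d * evL r (z ^ 2) := by
      rw [Complex.ofReal_mul, T_real hl hs hz, T_real hl hs hz', hr, evL_eo z l, evL_eo (-z) l]
      have e3 : (-z)⁻¹ ^ d = z⁻¹ ^ d := by
        rw [inv_neg, hd.neg_pow]
      rw [e3, neg_sq]
      have e4 : ((z ^ 2)⁻¹) ^ d = z⁻¹ ^ d * z⁻¹ ^ d := by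
        rw [← mul_pow, ← mul_inv, sq]
      rw [e4]; ring
    rw [T, ← e1, Complex.ofReal_re]
  have hpr : Pos d r := by
    intro z hz
    obtain ⟨w, hw⟩ := IsAlgClosed.exists_pow_nat_eq z (n := 2) (by norm_num)
    have hw1 : ‖w‖ = 1 := by
      have h1 : ‖w‖ ^ 2 = 1 := by rw [← norm_pow, hw, hz]
      nlinarith [norm_nonneg w]
    rw [← hw, hmul w hw1]
    exact mul_pos (hp _ hw1) (hp _ (by rw [norm_neg, hw1]))
  exact ⟨hpr, H23.ZU.HALF (T d l) (T_cont d l) hp (T d r) (T_cont d r) hmul⟩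

theorem cont_logT {d : ℕ} {l : List ℤ} (hp : Pos d l) :
    CircleIntegrable (fun z => Real.log (T d l z)) 0 1 := by
  refine ContinuousOn.circleIntegrable' ?_
  rw [abs_one]
  exact (T_cont d l).log (fun z hz => (hp z (by simpa using hz)).ne')

/-- comparison -/
theorem step_le {d : ℕ} {r q : List ℤ} (e : ℕ) (hp : Pos d r)
    (h : ∀ z : ℂ, ‖z‖ = 1 → T d r z ≤ 2 ^ e * T d q z) : Pos d q ∧ J d r ≤ e * Real.log 2 + J d q := by
  have h2 : (0 : ℝ) < 2 ^ e := by positivity
  have hq : Pos d q := by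
    intro z hz
    have := lt_of_lt_of_le (hp z hz) (h z hz)
    exact (mul_pos_iff_of_pos_left h2).mp this
  refine ⟨hq, ?_⟩
  have e1 : J d r ≤ Real.circleAverage (fun z => (e * Real.log 2 + Real.log (T d q z) : ℝ)) 0 1 := by
    refine Real.circleAverage_mono (cont_logT hp) ?_ ?_
    · exact (circleIntegrable_const _ _ _).add (cont_logT hq)
    · intro z hz
      rw [abs_one] at hz
      have hz' : ‖z‖ = 1 := by simpa using hz
      have h3 := Real.log_le_log (hp z hz') (h z hz')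
      rw [Real.log_mul h2.ne' (hq z hz').ne', Real.log_pow] at h3
      exact h3
  have e2 : Real.circleAverage (fun z => (e * Real.log 2 + Real.log (T d q z) : ℝ)) 0 1 =
      e * Real.log 2 + J d q := by
    have := Real.circleAverage_add (c := (0 : ℂ)) (R := 1)
      (f₁ := fun _ : ℂ => (e * Real.log 2 : ℝ)) (f₂ := fun z => Real.log (T d q z))
      (circleIntegrable_const _ _ _) (cont_logT hq)
    rw [Real.circleAverage_const] at this
    exact this
  rw [e2] at e1
  exact e1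

/-- the last step -/
theorem last_le {d : ℕ} {l : List ℤ} (hl : d < l.length) (hp : Pos d l) (v : ℕ)
    (hv : l[d] ≤ 2 ^ v) : J d l ≤ v * Real.log 2 := by
  have hp' : ∀ z : ℂ, ‖z‖ = 1 →
      0 < ((z⁻¹) ^ d * (∑ j, ((l.get j : ℤ) : ℂ) * z ^ (j : ℕ))).re := by
    intro z hz
    have := hp z hz
    rwa [T, evL_get] at this
  have h := H2.ZU.avg_log l.length (fun j => l.get j) ⟨d, hl⟩ hp'
  have hJ : J d l ≤ Real.log (l[d] : ℤ) := by
    refine le_trans (le_of_eq ?_) h.2
    rw [J]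
    congr 1
    funext z
    rw [T, evL_get]
  refine hJ.trans ?_
  have h3 : ((l[d] : ℤ) : ℝ) ≤ (2 : ℝ) ^ v := by exact_mod_cast hv
  have h4 : (0 : ℝ) < ((l[d] : ℤ) : ℝ) := by exact_mod_cast h.1
  have h5 := Real.log_le_log h4 h3
  rwa [Real.log_pow] at h5

end Pool.H1.ZU
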