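import Pool.Agent.H1.ZU.Def

/-! The covering theorem (module COV, from RES). -/

open Polynomial

namespace Pool.H1.ZU

theorem Cov.mono {n : ℕ} {B B2 : ℂ → ℝ} (h : Cov n B) (hB : ∀ z : ℂ, ‖z‖ = 1 → B z ≤ B2 z) :
    Cov n B2 := by
  intro g hg
  obtain ⟨f, hf, hb⟩ := h g hg
  exact ⟨f, hf, fun z hz => (hb z hz).trans (hB z hz)⟩

theorem cov_peel {n : ℕ} {P : ℤ[X]} (hP : P.Monic) {b B' : ℂ → ℝ} (h' : Cov n B')
    (hres : ∀ g : ℝ[X], g.natDegree ≤ n + P.natDegree → ∃ (f : ℤ[X]) (u : ℝ[X]),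
      f.natDegree ≤ n + P.natDegree ∧ u.natDegree ≤ n + P.natDegree ∧ ri P ∣ g - ri f - u ∧
      ∀ z : ℂ, ‖z‖ = 1 → ‖ev u z‖ ≤ b z) :
    Cov (n + P.natDegree) (fun z => b z + ‖ev (ri P) z‖ * B' z) := by
  intro g hg
  obtain ⟨f0, u, hf0, hu, ⟨g', hg'⟩, hub⟩ := hres g hg
  have hPr : (ri P).Monic := hP.map _
  have hdeg : g'.natDegree ≤ n := by
    by_cases h0 : g' = 0
    · simp [h0]
    have h1 : (ri P * g').natDegree = P.natDegree + g'.natDegree := by
      rw [hPr.natDegree_mul' h0, ri_natDegree]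
    have h2 : (g - ri f0 - u).natDegree ≤ n + P.natDegree := by
      refine (natDegree_sub_le _ _).trans (max_le ((natDegree_sub_le _ _).trans (max_le hg ?_)) hu)
      rw [ri_natDegree]; exact hf0
    rw [hg', h1] at h2
    omega
  obtain ⟨f1, hf1, hb⟩ := h' g' hdeg
  refine ⟨f0 + P * f1, ?_, ?_⟩
  · refine (natDegree_add_le _ _).trans (max_le hf0 ((natDegree_mul_le).trans (by omega)))
  · intro z hz
    have e : g - ri (f0 + P * f1) = u + ri P * (g' - ri f1) := by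
      rw [ri_add, ri_mul, mul_sub, ← hg']; ring
    rw [e, ev_add, ev_mul]
    refine (norm_add_le _ _).trans (add_le_add (hub z hz) ?_)
    rw [norm_mul]
    exact mul_le_mul_of_nonneg_left (hb z hz) (norm_nonneg _)

theorem ev_C (x : ℝ) (z : ℂ) : ev (C x) z = x := by
  unfold ev; rw [aeval_C]; rfl

theorem cov_top {n : ℕ} {T : ℝ[X]} (hT : T.natDegree = n + 1) (hc : 1 ≤ |T.leadingCoeff|)
    {b B' : ℂ → ℝ} (h' : Cov n B') (hb : ∀ z : ℂ, ‖z‖ = 1 → ‖ev T z‖ ≤ b z) :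
    Cov (n + 1) (fun z => b z + B' z) := by
  intro g hg
  have hTc : T.coeff (n + 1) = T.leadingCoeff := by rw [← hT]; rfl
  have hl0 : T.leadingCoeff ≠ 0 := by
    intro h; rw [h, abs_zero] at hc; linarith
  set x : ℝ := g.coeff (n + 1) with hx
  set y : ℝ := (x - round x) / T.leadingCoeff with hy
  have hy1 : |y| ≤ 1 := by
    rw [hy, abs_div, div_le_one (by linarith)]
    have := abs_sub_round x
    linarith
  have hdeg : (g - ri (C (round x) * X ^ (n + 1)) - C y * T).natDegree ≤ n := by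
    rw [natDegree_le_iff_coeff_eq_zero]
    intro m hm
    rw [coeff_sub, coeff_sub, coeff_C_mul]
    have e1 : (ri (C (round x) * X ^ (n + 1))).coeff m = if m = n + 1 then (round x : ℝ) else 0 := by
      unfold ri
      rw [coeff_map, coeff_C_mul_X_pow]
      split_ifs <;> simp
    rw [e1]
    rcases Nat.lt_or_ge (n + 1) m with h | h
    · rw [coeff_eq_zero_of_natDegree_lt (lt_of_le_of_lt hg h),
        coeff_eq_zero_of_natDegree_lt (by rw [hT]; exact h), if_neg (by omega)]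
      ring
    · have hm2 : m = n + 1 := by omega
      rw [if_pos hm2, hm2, hTc, hy, ← hx]
      field_simp
      ring
  obtain ⟨f1, hf1, hb1⟩ := h' _ hdeg
  refine ⟨C (round x) * X ^ (n + 1) + f1, ?_, ?_⟩
  · refine (natDegree_add_le _ _).trans (max_le (natDegree_C_mul_X_pow_le _ _) (hf1.trans (by omega)))
  · intro z hz
    have e : g - ri (C (round x) * X ^ (n + 1) + f1) =
        C y * T + (g - ri (C (round x) * X ^ (n + 1)) - C y * T - ri f1) := by
      rw [ri_add]; ring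
    rw [e, ev_add]
    refine (norm_add_le _ _).trans (add_le_add ?_ (hb1 z hz))
    rw [ev_mul, norm_mul, ev_C, Complex.norm_real, Real.norm_eq_abs]
    calc |y| * ‖ev T z‖ ≤ 1 * ‖ev T z‖ := mul_le_mul_of_nonneg_right hy1 (norm_nonneg _)
      _ ≤ b z := by rw [one_mul]; exact hb z hz

theorem ev_continuous (f : ℝ[X]) : Continuous (fun z : ℂ => ev f z) := by
  unfold ev
  exact (Polynomial.continuous_aeval f).comp (by fun_prop)

theorem ev_bound (f : ℝ[X]) : ∃ M : ℝ, 0 ≤ M ∧ ∀ z : ℂ, ‖z‖ = 1 → ‖ev f z‖ ≤ M := by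
  obtain ⟨C, hC⟩ := (isCompact_sphere (0 : ℂ) 1).exists_bound_of_continuousOn
    (ev_continuous f).continuousOn
  refine ⟨max C 0, le_max_right _ _, fun z hz => (hC z ?_).trans (le_max_left _ _)⟩
  simpa using hz

/-- the residues modulo `X - a` -/
theorem res_lin (a : ℤ) (G : ℝ[X]) (hG : 1 ≤ |G.eval (a : ℝ)|) (w : ℕ) (g : ℝ[X]) :
    ∃ (f : ℤ[X]) (u : ℝ[X]), f.natDegree ≤ 0 ∧ u.natDegree ≤ w * G.natDegree ∧
      ri (X - C a) ∣ g - ri f - u ∧ ∀ z : ℂ, ‖z‖ = 1 → ‖ev u z‖ ≤ 1 * ‖ev G z‖ ^ w := by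
  have h0 : G.eval (a : ℝ) ≠ 0 := by intro h; rw [h, abs_zero] at hG; linarith
  have h0w : G.eval (a : ℝ) ^ w ≠ 0 := pow_ne_zero _ h0
  set x : ℝ := g.eval (a : ℝ) with hx
  set y : ℝ := (x - round x) / G.eval (a : ℝ) ^ w with hy
  have hy1 : |y| ≤ 1 := by
    rw [hy, abs_div, abs_pow]
    have h1 : (1 : ℝ) ≤ |G.eval (a : ℝ)| ^ w := one_le_pow₀ hG
    rw [div_le_one (by linarith)]
    have := abs_sub_round x
    linarith
  refine ⟨C (round x), C y * G ^ w, by simp, ?_, ?_, ?_⟩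
  · exact (natDegree_C_mul_le _ _).trans (natDegree_pow_le)
  · have e : ri (X - C a) = X - C (a : ℝ) := by
      unfold ri; simp
    rw [e, dvd_iff_isRoot, IsRoot.def]
    have e2 : ri (C (round x)) = C (round x : ℝ) := by unfold ri; simp
    rw [e2, eval_sub, eval_sub, eval_C, eval_mul, eval_C, eval_pow, ← hx, hy]
    field_simp
    ring
  · intro z _
    rw [ev_mul, ev_C, ev_pow, norm_mul, norm_pow, Complex.norm_real, Real.norm_eq_abs]
    exact mul_le_mul_of_nonneg_right hy1 (by positivity)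

/-- peeling of `c` factors `P` -/
theorem stage_pow {P : ℤ[X]} (hP : P.Monic) (k : ℕ) (E : ℂ → ℝ)
    (hE0 : ∀ z : ℂ, ‖z‖ = 1 → 0 ≤ E z) (Kp : ℝ) (hKp : 0 ≤ Kp)
    (hres : ∀ (w : ℕ) (g : ℝ[X]), ∃ (f : ℤ[X]) (u : ℝ[X]),
      f.natDegree ≤ P.natDegree ∧ u.natDegree ≤ k * w + P.natDegree ∧ ri P ∣ g - ri f - u ∧
      ∀ z : ℂ, ‖z‖ = 1 → ‖ev u z‖ ≤ Kp * E z ^ w) (c : ℕ) (K0 : ℝ) (hK0 : 0 ≤ K0) :
    ∃ K1 : ℝ, 0 ≤ K1 ∧ ∀ (w n : ℕ) (B' : ℂ → ℝ) (S : ℤ[X]), k * w ≤ n →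
      Cov n (fun z => ‖ev (ri S) z‖ * B' z + K0 * E z ^ w) →
      Cov (n + c * P.natDegree) (fun z => ‖ev (ri (P ^ c * S)) z‖ * B' z + K1 * E z ^ w) := by
  induction c with
  | zero => exact ⟨K0, hK0, fun w n B' S _ h => by simpa using h⟩
  | succ c ih =>
    obtain ⟨K1, hK1, h⟩ := ih
    obtain ⟨M, hM, hMb⟩ := ev_bound (ri P)
    refine ⟨Kp + M * K1, by positivity, fun w n B' S hn hC => ?_⟩
    have h1 := h w n B' S hn hC
    have h2 := cov_peel hP (b := fun z => Kp * E z ^ w) h1 (fun g _ => by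
      obtain ⟨f, u, hf, hu, hd, hb⟩ := hres w g
      exact ⟨f, u, by omega, by omega, hd, hb⟩)
    have e : n + (c + 1) * P.natDegree = n + c * P.natDegree + P.natDegree := by ring
    rw [e]
    refine h2.mono fun z hz => ?_
    have e2 : ev (ri (P ^ (c + 1) * S)) z = ev (ri P) z * ev (ri (P ^ c * S)) z := by
      rw [← ev_mul, ← ri_mul, pow_succ]
      congr 2
      ring
    rw [e2, norm_mul, mul_add]
    have h3 : ‖ev (ri P) z‖ * (K1 * E z ^ w) ≤ M * (K1 * E z ^ w) :=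
      mul_le_mul_of_nonneg_right (hMb z hz) (mul_nonneg hK1 (pow_nonneg (hE0 z hz) _))
    nlinarith [h3]

theorem N10_monic : N10.Monic := by
  unfold N10
  monicity!

theorem N10_natDegree : N10.natDegree = 4 := by
  unfold N10
  compute_degree!

/-- one round: `Cov (k w)` gives `Cov (k w + k)` -/
theorem round_step (HR : S_RES) (a b c k : ℕ) (hk : a + b + 4 * c ≤ k) (G : ℝ[X])
    (hGd : G.natDegree = k) (hGl : 1 ≤ |G.leadingCoeff|) (hG0 : 1 ≤ |G.eval 0|)
    (hG1 : 1 ≤ |G.eval 1|) (hG10 : 1 ≤ ‖aeval b1 G‖ * ‖aeval b3 G‖) (E : ℂ → ℝ)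
    (hEG : ∀ z : ℂ, ‖z‖ = 1 → ‖ev G z‖ ≤ E z) :
    ∃ K1 : ℝ, 0 ≤ K1 ∧ ∀ (w : ℕ) (B' : ℂ → ℝ), Cov (k * w) B' →
      Cov (k * w + k) (fun z => ‖ev (ri (X ^ a * (X - 1) ^ b * N10 ^ c)) z‖ * B' z +
        K1 * E z ^ w) := by
  have hE0 : ∀ z : ℂ, ‖z‖ = 1 → 0 ≤ E z := fun z hz => (norm_nonneg _).trans (hEG z hz)
  obtain ⟨KR, hKR, hR⟩ := HR G hG10
  obtain ⟨A1, hA1, h1⟩ := stage_pow N10_monic k E hE0 KR hKR.le (fun w g => by
    obtain ⟨f, u, hf, hu, hd, hb⟩ := hR w g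
    refine ⟨f, u, by rw [N10_natDegree]; omega, ?_, hd, fun z hz => (hb z hz).trans ?_⟩
    · rw [N10_natDegree]
      rw [hGd] at hu
      have : w * k = k * w := Nat.mul_comm _ _
      omega
    · exact mul_le_mul_of_nonneg_left (pow_le_pow_left₀ (norm_nonneg _) (hEG z hz) _) hKR.le)
    c 0 le_rfl
  have hlin : ∀ (x : ℤ), 1 ≤ |G.eval (x : ℝ)| → ∀ (w : ℕ) (g : ℝ[X]), ∃ (f : ℤ[X]) (u : ℝ[X]),
      f.natDegree ≤ (X - C x : ℤ[X]).natDegree ∧ u.natDegree ≤ k * w + (X - C x : ℤ[X]).natDegree ∧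
      ri (X - C x) ∣ g - ri f - u ∧ ∀ z : ℂ, ‖z‖ = 1 → ‖ev u z‖ ≤ 1 * E z ^ w := by
    intro x hx w g
    obtain ⟨f, u, hf, hu, hd, hb⟩ := res_lin x G hx w g
    refine ⟨f, u, by omega, ?_, hd, fun z hz => (hb z hz).trans ?_⟩
    · rw [hGd] at hu
      have : w * k = k * w := Nat.mul_comm _ _
      omega
    · exact mul_le_mul_of_nonneg_left (pow_le_pow_left₀ (norm_nonneg _) (hEG z hz) _) zero_le_one
  obtain ⟨A2, hA2, h2⟩ := stage_pow (monic_X_sub_C (1 : ℤ)) k E hE0 1 zero_le_one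
    (hlin 1 (by simpa using hG1)) b A1 hA1
  obtain ⟨A3, hA3, h3⟩ := stage_pow (monic_X_sub_C (0 : ℤ)) k E hE0 1 zero_le_one
    (hlin 0 (by simpa using hG0)) a A2 hA2
  obtain ⟨M, hM, hMb⟩ := ev_bound (X : ℝ[X])
  set M' : ℝ := max M 1 with hM'
  have hM1 : 1 ≤ M' := le_max_right _ _
  -- the places at infinity
  have htop : ∀ (j : ℕ), ∀ (w D : ℕ) (B' : ℂ → ℝ) (K : ℝ), D + j ≤ k →
      Cov (k * w + D) (fun z => B' z + K * E z ^ w) →
      Cov (k * w + (D + j)) (fun z => B' z + (K + j * M' ^ k) * E z ^ w) := by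
    intro j
    induction j with
    | zero => intro w D B' K _ h; simpa using h
    | succ j ih =>
      intro w D B' K hj h
      have h4 := ih w D B' K (by omega) h
      have hl : (G ^ w * X ^ (D + j + 1)).leadingCoeff = G.leadingCoeff ^ w := by
        rw [leadingCoeff_mul, leadingCoeff_pow, leadingCoeff_X_pow, mul_one]
      have hG00 : G ≠ 0 := by
        intro h0; rw [h0] at hGl; simp at hGl; linarith
      have hdT : (G ^ w * X ^ (D + j + 1)).natDegree = (k * w + (D + j)) + 1 := by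
        rw [natDegree_mul (pow_ne_zero _ hG00) (pow_ne_zero _ X_ne_zero), natDegree_pow,
          natDegree_X_pow, hGd]
        ring
      have h5 := cov_top hdT (by rw [hl, abs_pow]; exact one_le_pow₀ hGl)
        (b := fun z => M' ^ k * E z ^ w) h4 (fun z hz => by
          rw [ev_mul, ev_pow, ev_pow, norm_mul, norm_pow, norm_pow, mul_comm]
          refine mul_le_mul ?_ (pow_le_pow_left₀ (norm_nonneg _) (hEG z hz) _) (by positivity)
            (by positivity)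
          refine (pow_le_pow_left₀ (norm_nonneg _) ((hMb z hz).trans (le_max_left M 1)) _).trans ?_
          exact pow_le_pow_right₀ hM1 (by omega))
      have e : k * w + (D + (j + 1)) = k * w + (D + j) + 1 := by ring
      rw [e]
      refine h5.mono fun z hz => le_of_eq ?_
      push_cast
      ring
  set D : ℕ := a + b + 4 * c with hD
  refine ⟨A3 + (k - D : ℕ) * M' ^ k, by positivity, fun w B' hB => ?_⟩
  have s0 : Cov (k * w) (fun z => ‖ev (ri 1) z‖ * B' z + 0 * E z ^ w) := by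
    refine hB.mono fun z _ => ?_
    have : ev (ri 1) z = 1 := by unfold ev ri; simp
    rw [this, norm_one, one_mul, zero_mul, add_zero]
  have s1 := h1 w (k * w) B' 1 le_rfl s0
  have s2 := h2 w _ B' _ (by omega) s1
  have s3 := h3 w _ B' _ (by omega) s2
  rw [N10_natDegree, natDegree_X_sub_C, natDegree_X_sub_C] at s3
  have e1 : k * w + c * 4 + b * 1 + a * 1 = k * w + D := by rw [hD]; ring
  have e2 : (X - C 0 : ℤ[X]) ^ a * ((X - C 1) ^ b * (N10 ^ c * 1)) =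
      X ^ a * (X - 1) ^ b * N10 ^ c := by
    rw [C_0, sub_zero, C_1, mul_one]; ring
  rw [e1, e2] at s3
  have s4 := htop (k - D) w D _ _ (by omega) s3
  have e3 : D + (k - D) = k := by omega
  rw [e3] at s4
  exact s4

theorem COV (HR : S_RES) : S_COV := by
  intro a b c k hk0 hk G hGd hGl hG0 hG1 hG10 E hEs hEG
  have hE0 : ∀ z : ℂ, ‖z‖ = 1 → 0 ≤ E z := fun z hz => (norm_nonneg _).trans (hEG z hz)
  obtain ⟨K1, hK1, hstep⟩ := round_step HR a b c k hk G hGd hGl hG0 hG1 hG10 E hEG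
  obtain ⟨M, hM, hMb⟩ := ev_bound (ri (X ^ a * (X - 1) ^ b * N10 ^ c))
  refine ⟨M + K1 + 1, by positivity, fun N => ?_⟩
  have hbase : Cov 0 (fun _ => 1) := by
    intro g hg
    obtain ⟨x, hx⟩ : ∃ x : ℝ, g = C x := ⟨_, eq_C_of_natDegree_le_zero hg⟩
    refine ⟨C (round x), by simp, fun z _ => ?_⟩
    have e : g - ri (C (round x)) = C (x - round x) := by
      rw [hx, C_sub]; unfold ri; simp
    rw [e, ev_C, Complex.norm_real, Real.norm_eq_abs]
    have := abs_sub_round x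
    linarith
  induction N with
  | zero =>
    have h := hstep 0 (fun _ => 1) (by simpa using hbase)
    have e : k * (0 + 1) = k * 0 + k := by ring
    rw [e]
    refine h.mono fun z hz => ?_
    have := hMb z hz
    simp only [pow_zero, Nat.cast_zero, zero_add, mul_one]
    linarith
  | succ N ih =>
    have h := hstep (N + 1) _ ih
    have e : k * (N + 1 + 1) = k * (N + 1) + k := by ring
    rw [e]
    refine h.mono fun z hz => ?_
    have h1 := hEs z hz
    have h2 : 0 ≤ (M + K1 + 1) * ((N : ℝ) + 1) * E z ^ N :=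
      mul_nonneg (by positivity) (pow_nonneg (hE0 z hz) _)
    have h3 : ‖ev (ri (X ^ a * (X - 1) ^ b * N10 ^ c)) z‖ *
        ((M + K1 + 1) * ((N : ℝ) + 1) * E z ^ N) ≤ E z * ((M + K1 + 1) * ((N : ℝ) + 1) * E z ^ N) :=
      mul_le_mul_of_nonneg_right h1 h2
    have h4 : 0 ≤ E z ^ (N + 1) := pow_nonneg (hE0 z hz) _
    push_cast
    have h5 : E z * ((M + K1 + 1) * ((N : ℝ) + 1) * E z ^ N) =
        (M + K1 + 1) * ((N : ℝ) + 1) * E z ^ (N + 1) := by ring
    nlinarith [h3, h4]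

end Pool.H1.ZU
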