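import Mathlib

/-!
# Upper side of the Zhang-Zagier spectrum: definitions

`t = z - z ^ 2`, `|z| = 1`. `Cov n B`: every real polynomial in `t` of degree at most `n` is within
`B z` of an integer polynomial of degree at most `n`, on the circle.
-/

open Polynomial

namespace Pool.H1.ZU

/-- value of a real polynomial at `z - z ^ 2` -/
noncomputable def ev (f : ℝ[X]) (z : ℂ) : ℂ := aeval (z - z ^ 2) f

/-- an integer polynomial as a real one -/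
noncomputable def ri (f : ℤ[X]) : ℝ[X] := f.map (Int.castRingHom ℝ)

/-- covering of the real polynomials of degree at most `n` by the integer ones -/
def Cov (n : ℕ) (B : ℂ → ℝ) : Prop :=
  ∀ g : ℝ[X], g.natDegree ≤ n → ∃ f : ℤ[X], f.natDegree ≤ n ∧
    ∀ z : ℂ, ‖z‖ = 1 → ‖ev (g - ri f) z‖ ≤ B z

/-- `N10(t)`, with roots `z - z ^ 2`, `z` a primitive tenth root of unity -/
noncomputable def N10 : ℤ[X] := X ^ 4 - 2 * X ^ 3 + 4 * X ^ 2 - 3 * X + 1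

/-- the two values `y = (3 - √5) / 2`, `(3 + √5) / 2` -/
noncomputable def y1 : ℝ := (3 - Real.sqrt 5) / 2
@[inherit_doc y1]
noncomputable def y3 : ℝ := (3 + Real.sqrt 5) / 2

/-- the two roots of `N10` in the upper half plane: `t ^ 2 - t + y = 0` -/
noncomputable def b1 : ℂ := ⟨1 / 2, Real.sqrt (y1 - 1 / 4)⟩
@[inherit_doc b1]
noncomputable def b3 : ℂ := ⟨1 / 2, Real.sqrt (y3 - 1 / 4)⟩

theorem ev_add (f g : ℝ[X]) (z : ℂ) : ev (f + g) z = ev f z + ev g z := map_add _ _ _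
theorem ev_sub (f g : ℝ[X]) (z : ℂ) : ev (f - g) z = ev f z - ev g z := map_sub _ _ _
theorem ev_mul (f g : ℝ[X]) (z : ℂ) : ev (f * g) z = ev f z * ev g z := map_mul _ _ _
theorem ev_pow (f : ℝ[X]) (n : ℕ) (z : ℂ) : ev (f ^ n) z = ev f z ^ n := map_pow _ _ _
theorem ri_add (f g : ℤ[X]) : ri (f + g) = ri f + ri g := Polynomial.map_add _
theorem ri_sub (f g : ℤ[X]) : ri (f - g) = ri f - ri g := Polynomial.map_sub _
theorem ri_mul (f g : ℤ[X]) : ri (f * g) = ri f * ri g := Polynomial.map_mul _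
theorem ri_pow (f : ℤ[X]) (n : ℕ) : ri (f ^ n) = ri f ^ n := Polynomial.map_pow _ _
theorem ri_natDegree (f : ℤ[X]) : (ri f).natDegree = f.natDegree :=
  natDegree_map_eq_of_injective (RingHom.injective_int _) f

/-! ## The statements of the modules -/

/-- M1: the covering theorem for all `N` -/
def S_COV : Prop := ∀ (a b c k : ℕ), 0 < k → a + b + 4 * c ≤ k → ∀ (G : ℝ[X]), G.natDegree = k →
  1 ≤ |G.leadingCoeff| → 1 ≤ |G.eval 0| → 1 ≤ |G.eval 1| → 1 ≤ ‖aeval b1 G‖ * ‖aeval b3 G‖ →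
  ∀ E : ℂ → ℝ, (∀ z, ‖z‖ = 1 → ‖ev (ri (X ^ a * (X - 1) ^ b * N10 ^ c)) z‖ ≤ E z) →
  (∀ z, ‖z‖ = 1 → ‖ev G z‖ ≤ E z) →
  ∃ K : ℝ, 0 < K ∧ ∀ N : ℕ, Cov (k * (N + 1)) (fun z => K * (N + 1) * E z ^ N)

/-- M2: the residues modulo `N10` -/
def S_RES : Prop := ∀ (G : ℝ[X]), 1 ≤ ‖aeval b1 G‖ * ‖aeval b3 G‖ → ∃ K : ℝ, 0 < K ∧
  ∀ (w : ℕ) (g : ℝ[X]), ∃ (f : ℤ[X]) (u : ℝ[X]), f.natDegree ≤ 3 ∧
    u.natDegree ≤ w * G.natDegree + 3 ∧ ri N10 ∣ g - ri f - u ∧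
    ∀ z : ℂ, ‖z‖ = 1 → ‖ev u z‖ ≤ K * ‖ev G z‖ ^ w

/-- M3: from the covering to small integer polynomials which avoid a finite set -/
def S_GEN : Prop := ∀ (n : ℕ) (B : ℂ → ℝ), (∀ z, ‖z‖ = 1 → 0 ≤ B z) → Cov n B → ∀ δ : ℝ, 0 < δ →
  ∀ A : Finset ℂ, ∃ q : ℤ[X], q.natDegree = n ∧ (∀ a ∈ A, aeval a q ≠ 0) ∧
    ∀ z : ℂ, ‖z‖ = 1 → ‖ev (ri q) z‖ ≤ (A.card + 2 : ℝ) ^ 2 * (2 * B z + δ)

end Pool.H1.ZU
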