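import Pool.Agent.H1.ZU.Lst

/-! Kernel functions on lists of natural numbers (digits with an offset), and what a successful
check gives. -/

namespace Pool.H1.ZU

/-- evaluate a number before use -/
def forceN {α : Type} (n : ℕ) (k : ℕ → α) : α :=
  Nat.rec (motive := fun _ => α) (k 0) (fun m _ => k (Nat.succ m)) n

theorem forceN_eq {α : Type} (n : ℕ) (k : ℕ → α) : forceN n k = k n := by cases n <;> rfl

/-- evaluate a list before use -/
def forceLN {α : Type} : List ℕ → (List ℕ → α) → α
  | [], k => k []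
  | x :: xs, k => forceN x (fun y => forceLN xs (fun ys => k (y :: ys)))

theorem forceLN_eq {α : Type} : ∀ (l : List ℕ) (k : List ℕ → α), forceLN l k = k l
  | [], _ => rfl
  | x :: xs, k => by rw [forceLN, forceN_eq, forceLN_eq xs]

/-- value of a list of natural numbers -/
def evN (X : ℕ) (l : List ℕ) : ℕ := l.foldr (fun a r => a + X * r) 0

@[simp] theorem evN_nil (X : ℕ) : evN X [] = 0 := rfl
@[simp] theorem evN_cons (X a : ℕ) (l : List ℕ) : evN X (a :: l) = a + X * evN X l := rfl

/-- join the digits two by two -/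
def pairsN (s : ℕ) : List ℕ → List ℕ
  | [] => []
  | [a] => [a]
  | a :: b :: l => Nat.add a (Nat.shiftLeft b s) :: pairsN s l

theorem evN_pairs (s : ℕ) : ∀ l : List ℕ, evN (2 ^ (s + s)) (pairsN s l) = evN (2 ^ s) l
  | [] => rfl
  | [a] => by simp [pairsN]
  | a :: b :: l => by
    rw [pairsN, evN_cons, evN_pairs s l, evN_cons, evN_cons]
    have : Nat.add a (Nat.shiftLeft b s) = a + b * 2 ^ s := by
      have h := Nat.shiftLeft_eq b s
      change a + (b <<< s) = _
      rw [h]
    rw [this, pow_add]; ring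

/-- value at `2 ^ s`, without a power for at most one digit -/
def ev1 (s : ℕ) : List ℕ → ℕ
  | [] => 0
  | [a] => a
  | a :: b :: l => evN (2 ^ s) (a :: b :: l)

theorem ev1_eq (s : ℕ) : ∀ l : List ℕ, ev1 s l = evN (2 ^ s) l
  | [] => rfl
  | [a] => by simp [ev1]
  | _ :: _ :: _ => rfl

/-- value at `2 ^ s` -/
def pkN : ℕ → ℕ → List ℕ → ℕ
  | 0, s, l => ev1 s l
  | n + 1, s, l => forceN (Nat.add s s) (fun s' => pkN n s' (pairsN s l))

theorem pkN_eq : ∀ (n s : ℕ) (l : List ℕ), pkN n s l = evN (2 ^ s) l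
  | 0, s, l => ev1_eq s l
  | n + 1, s, l => by
    rw [pkN, forceN_eq, pkN_eq n]
    exact evN_pairs s l

/-- digits -/
def unpN : ℕ → ℕ → ℕ → List ℕ → List ℕ
  | 0, _, N, acc =>
    Nat.rec (motive := fun _ => List ℕ)
      (match acc with
        | [] => []
        | b :: bs => 0 :: b :: bs)
      (fun m _ => Nat.succ m :: acc) N
  | i + 1, s, N, acc =>
    Nat.rec (motive := fun _ => List ℕ)
      (match acc with
        | [] => []
        | b :: bs => List.replicate (2 ^ (i + 1)) 0 ++ (b :: bs))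
      (fun m _ => unpN i (Nat.shiftRight s 1)
        (Nat.land (Nat.succ m) (Nat.sub (Nat.shiftLeft 1 s) 1))
        (unpN i (Nat.shiftRight s 1) (Nat.shiftRight (Nat.succ m) s) acc)) N

/-- all the entries are less than `B` -/
def allLt (B : ℕ) : List ℕ → Bool
  | [] => true
  | a :: l => Nat.ble (Nat.succ a) B && allLt B l

theorem allLt_spec (B : ℕ) : ∀ l : List ℕ, allLt B l = true → ∀ x ∈ l, x < B
  | [], _, x, hx => by simp at hx
  | a :: l, h, x, hx => by
    rw [allLt, Bool.and_eq_true] at h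
    rw [List.mem_cons] at hx
    rcases hx with hx | hx
    · rw [hx]; exact Nat.le_of_ble_eq_true h.1
    · exact allLt_spec B l h.2 x hx

/-- equality of lists -/
def eqN : List ℕ → List ℕ → Bool
  | [], [] => true
  | a :: l, b :: m => Nat.beq a b && eqN l m
  | _, _ => false

theorem eqN_spec : ∀ l m : List ℕ, eqN l m = true → l = m
  | [], [], _ => rfl
  | a :: l, b :: m, h => by
    rw [eqN, Bool.and_eq_true] at h
    rw [Nat.eq_of_beq_eq_true h.1, eqN_spec l m h.2]
  | [], b :: m, h => by simp [eqN] at h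
  | a :: l, [], h => by simp [eqN] at h

/-- entries with even index -/
def evens {α : Type} : List α → List α
  | [] => []
  | [a] => [a]
  | a :: _ :: l => a :: evens l

/-- entries with odd index -/
def odds {α : Type} : List α → List α
  | [] => []
  | [_] => []
  | _ :: b :: l => b :: odds l

/-- add `m` to the entry with index `n` -/
def bumpN (m : ℕ) : ℕ → List ℕ → List ℕ
  | _, [] => []
  | 0, a :: l => Nat.add a m :: l
  | n + 1, a :: l => a :: bumpN m n l

/-- shift all the entries -/
def shr (e : ℕ) (l : List ℕ) : List ℕ := l.map (fun x => Nat.shiftRight x e)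

/-- read the digits of `NN`, check them, cut `e` bits and continue -/
def finN (n w u d e NN : ℕ) (k : List ℕ → Bool) : Bool :=
  forceLN (unpN n (Nat.shiftLeft w (Nat.pred n)) NN []) (fun D =>
    Nat.beq (pkN n w D) NN && (Nat.beq D.length (2 * d + 1) &&
      (allLt (Nat.shiftLeft 1 (u + e + 1)) D &&
        forceLN (bumpN (2 * d + 1) d (shr e D)) (fun a => eqN a a.reverse && k a))))

theorem one_shl (s : ℕ) : Nat.shiftLeft 1 s = 2 ^ s := by
  have h := Nat.shiftLeft_eq 1 s
  change 1 <<< s = _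
  rw [h, one_mul]

theorem finN_spec (n w u d e NN : ℕ) (k : List ℕ → Bool) (h : finN n w u d e NN k = true) :
    ∃ D : List ℕ, evN (2 ^ w) D = NN ∧ D.length = 2 * d + 1 ∧ (∀ x ∈ D, x < 2 ^ (u + e + 1)) ∧
      (bumpN (2 * d + 1) d (shr e D)).reverse = bumpN (2 * d + 1) d (shr e D) ∧
      k (bumpN (2 * d + 1) d (shr e D)) = true := by
  rw [finN, forceLN_eq, forceLN_eq] at h
  simp only [Bool.and_eq_true] at h
  obtain ⟨h1, h2, h3, h4, h5⟩ := h
  rw [one_shl] at h3
  have h6 := Nat.eq_of_beq_eq_true h1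
  rw [pkN_eq] at h6
  exact ⟨_, h6, Nat.eq_of_beq_eq_true h2, allLt_spec _ _ h3, (eqN_spec _ _ h4).symm, h5⟩

/-- the square of the difference -/
def sqd (a b : ℕ) : ℕ := forceN (Nat.add (Nat.sub a b) (Nat.sub b a)) (fun c => Nat.mul c c)

theorem sqd_eq (a b : ℕ) : ((sqd a b : ℕ) : ℤ) = ((a : ℤ) - b) ^ 2 := by
  rw [sqd, forceN_eq]
  change (((a - b + (b - a)) * (a - b + (b - a)) : ℕ) : ℤ) = _
  rcases le_total a b with h | h
  · rw [Nat.sub_eq_zero_of_le h, zero_add]; push_cast [h]; ring
  · rw [Nat.sub_eq_zero_of_le h, add_zero]; push_cast [h]; ring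

/-- the chain of root squaring steps -/
def runN (n w u d v Re Ro R2 : ℕ) : List ℕ → List ℕ → Bool
  | [], a => Nat.ble (a.getD d 0) (Nat.add (Nat.shiftLeft 1 u) (Nat.shiftLeft 1 v))
  | e :: es, a =>
    Nat.ble (Nat.succ ((2 * d + 1) * (Nat.shiftLeft 1 u + (2 * d + 1)) ^ 2 +
      Nat.shiftLeft 1 (u + e))) (Nat.shiftLeft 1 w) &&
    forceN (sqd (pkN n w (evens a)) (Nat.shiftLeft Re u)) (fun E2 =>
    forceN (Nat.shiftLeft (sqd (pkN n w (odds a)) (Nat.shiftLeft Ro u)) w) (fun O2 =>
    forceN (Nat.add E2 (Nat.shiftLeft R2 (u + e))) (fun F =>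
    Nat.ble O2 F && finN n w u d e (Nat.sub F O2) (fun a' => runN n w u d v Re Ro R2 es a'))))

/-- list with an offset removed -/
def sg (o : ℕ) (l : List ℕ) : List ℤ := l.map (fun (x : ℕ) => (x : ℤ) - (o : ℤ))

/-- ones -/
def rep (n : ℕ) : List ℕ := List.replicate n 1

theorem evL_sg (o X : ℕ) (l : List ℕ) :
    evL (sg o l) (X : ℤ) = (evN X l : ℤ) - o * (evN X (rep l.length) : ℤ) := by
  induction l with
  | nil => simp [sg, rep]
  | cons a l ih =>
    have e : sg o (a :: l) = ((a : ℤ) - o) :: sg o l := rfl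
    have e2 : rep (a :: l).length = 1 :: rep l.length := by
      simp [rep, List.replicate_succ]
    rw [e, e2, evL_cons, ih, evN_cons, evN_cons]
    push_cast; ring

theorem sg_length (o : ℕ) (l : List ℕ) : (sg o l).length = l.length := by simp [sg]

theorem evens_map {α β : Type} (f : α → β) : ∀ l : List α, (evens l).map f = evens (l.map f)
  | [] => rfl
  | [a] => rfl
  | a :: b :: l => by simp only [evens, List.map_cons, evens_map f l]

theorem odds_map {α β : Type} (f : α → β) : ∀ l : List α, (odds l).map f = odds (l.map f)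
  | [] => rfl
  | [a] => rfl
  | a :: b :: l => by simp only [odds, List.map_cons, odds_map f l]

theorem evens_odds_length {α : Type} : ∀ l : List α,
    (evens l).length + (odds l).length = l.length ∧ (odds l).length ≤ (evens l).length ∧
      (evens l).length ≤ (odds l).length + 1
  | [] => by simp [evens, odds]
  | [a] => by simp [evens, odds]
  | a :: b :: l => by
    have h := evens_odds_length l
    simp only [evens, odds, List.length_cons]; omega

theorem evens_mem {α : Type} : ∀ l : List α, ∀ x ∈ evens l, x ∈ l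
  | [], x, h => by simp [evens] at h
  | [a], x, h => by simpa [evens] using h
  | a :: b :: l, x, h => by
    simp only [evens, List.mem_cons] at h ⊢
    rcases h with h | h
    · exact Or.inl h
    · exact Or.inr (Or.inr (evens_mem l x h))

theorem odds_mem {α : Type} : ∀ l : List α, ∀ x ∈ odds l, x ∈ l
  | [], x, h => by simp [odds] at h
  | [a], x, h => by simp [odds] at h
  | a :: b :: l, x, h => by
    simp only [odds, List.mem_cons] at h ⊢
    rcases h with h | h
    · exact Or.inr (Or.inl h)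
    · exact Or.inr (Or.inr (odds_mem l x h))

theorem evL_eo {R : Type*} [CommRing R] (x : R) : ∀ l : List ℤ,
    evL l x = evL (evens l) (x ^ 2) + x * evL (odds l) (x ^ 2)
  | [] => by simp [evens, odds]
  | [a] => by simp [evens, odds]
  | a :: b :: l => by
    have h := evL_eo x l
    simp only [evens, odds, evL_cons, h]; ring

/-- the digits give the polynomial of a root squaring step -/
theorem graeffe_digits (w u d e : ℕ) (a D : List ℕ) (hl : a.length = 2 * d + 1)
    (hM : Bd (2 ^ u + (2 * d + 1)) (sg (2 ^ u) a))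
    (hw : (2 * d + 1) * (2 ^ u + (2 * d + 1)) ^ 2 + 2 ^ (u + e) < (2 : ℤ) ^ w)
    (hD : D.length = 2 * d + 1) (hDb : ∀ x ∈ D, x < 2 ^ (u + e + 1))
    (hev : (evN (2 ^ w) D : ℤ) = (evN (2 ^ w) (evens a) - 2 ^ u * evN (2 ^ w) (rep (d + 1))) ^ 2 +
      2 ^ (u + e) * evN (2 ^ w) (rep (2 * d + 1)) -
      2 ^ w * (evN (2 ^ w) (odds a) - 2 ^ u * evN (2 ^ w) (rep d)) ^ 2)
    {R : Type*} [CommRing R] (x : R) :
    evL (sg (2 ^ (u + e)) D) x = evL (evens (sg (2 ^ u) a)) x ^ 2 -
      x * evL (odds (sg (2 ^ u) a)) x ^ 2 := by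
  set E := evens (sg (2 ^ u) a) with hE
  set O := odds (sg (2 ^ u) a) with hO
  have lens := evens_odds_length (sg (2 ^ u) a)
  rw [sg_length, hl] at lens
  have lE : E.length = d + 1 := by rw [hE]; omega
  have lO : O.length = d := by rw [hO]; omega
  have hE' : E = sg (2 ^ u) (evens a) := by rw [hE, sg, sg, evens_map]
  have hO' : O = sg (2 ^ u) (odds a) := by rw [hO, sg, sg, odds_map]
  have lE' : (evens a).length = d + 1 := by rw [← sg_length (2 ^ u), ← hE', lE]
  have lO' : (odds a).length = d := by rw [← sg_length (2 ^ u), ← hO', lO]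
  set M : ℤ := 2 ^ u + (2 * d + 1) with hMdef
  have hM0 : 0 ≤ M := by positivity
  have bE : Bd M E := fun c hc => hM c (evens_mem _ c hc)
  have bO : Bd M O := fun c hc => hM c (odds_mem _ c hc)
  set L : List ℤ := ladd (lmul E E) ((0 :: lmul O O).map (fun y => (-1) * y)) with hL
  have evLL : ∀ {S : Type} [CommRing S] (y : S), evL L y = evL E y ^ 2 - y * evL O y ^ 2 := by
    intro S _ y
    rw [hL, evL_ladd, evL_lmul, evL_smul, evL_cons, evL_lmul]; push_cast; ring
  have b1 : Bd ((d + 1) * (M * M)) (lmul E E) := by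
    have := Bd.lmul hM0 hM0 bE bE
    rw [lE] at this; push_cast at this; exact this
  have b2 : Bd (d * (M * M)) (0 :: lmul O O) := by
    have h := Bd.lmul hM0 hM0 bO bO
    rw [lO] at h
    intro c hc
    rw [List.mem_cons] at hc
    rcases hc with hc | hc
    · rw [hc, abs_zero]; positivity
    · exact h c hc
  have b3 : Bd (1 * (d * (M * M))) ((0 :: lmul O O).map (fun y => (-1) * y)) :=
    Bd.smul (-1) 1 (by simp) (by positivity) b2
  have b4 : Bd ((d + 1) * (M * M) + 1 * (d * (M * M))) L :=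
    Bd.ladd (by positivity) (by positivity) b1 b3
  have b5 : Bd (2 ^ (u + e)) (sg (2 ^ (u + e)) D) := by
    intro c hc
    rw [sg, List.mem_map] at hc
    obtain ⟨y, hy, rfl⟩ := hc
    have h1 := hDb y hy
    have h2 : (y : ℤ) < 2 ^ (u + e + 1) := by exact_mod_cast h1
    rw [pow_succ] at h2
    rw [abs_le]; push_cast
    constructor
    · have : (0 : ℤ) ≤ y := by positivity
      linarith
    · linarith
  have key : evL (sg (2 ^ (u + e)) D) ((2 ^ w : ℕ) : ℤ) = evL L ((2 ^ w : ℕ) : ℤ) := by
    rw [evLL, hE', hO', evL_sg, evL_sg, evL_sg, lE', lO', hD, hev]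
    push_cast; ring
  have hfin := ev_uniq x ((2 ^ w : ℕ) : ℤ) (2 ^ (u + e)) ((d + 1) * (M * M) + 1 * (d * (M * M)))
    (sg (2 ^ (u + e)) D) L (by positivity) (by positivity) b5 b4 (by
      push_cast
      have : (d + 1) * (M * M) + 1 * (d * (M * M)) = (2 * d + 1) * M ^ 2 := by ring
      rw [this]; linarith) key
  rw [hfin, hL, evL_ladd, evL_lmul, evL_smul, evL_cons, evL_lmul]; push_cast; ring

end Pool.H1.ZU
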