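import Mathlib

/-! Lists of integers as polynomials: evaluation, product, uniqueness of a representation with
small coefficients at one large point. -/

namespace Pool.H1.ZU

/-- value of a list of integers, low coefficient first -/
def evL {R : Type*} [CommRing R] (l : List ℤ) (x : R) : R :=
  l.foldr (fun (a : ℤ) (r : R) => (a : R) + x * r) 0

section ev
variable {R : Type*} [CommRing R] (x : R)

@[simp] theorem evL_nil : evL [] x = 0 := rfl
@[simp] theorem evL_cons (a : ℤ) (l : List ℤ) : evL (a :: l) x = (a : R) + x * evL l x := rfl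

theorem evL_append (l m : List ℤ) : evL (l ++ m) x = evL l x + x ^ l.length * evL m x := by
  induction l with
  | nil => simp
  | cons a l ih => simp only [List.cons_append, evL_cons, ih, List.length_cons, pow_succ]; ring

/-- sum -/
def ladd : List ℤ → List ℤ → List ℤ
  | [], m => m
  | a :: l, [] => a :: l
  | a :: l, b :: m => (a + b) :: ladd l m

theorem evL_ladd : ∀ l m : List ℤ, evL (ladd l m) x = evL l x + evL m x
  | [], m => by simp [ladd]
  | a :: l, [] => by simp [ladd]
  | a :: l, b :: m => by simp only [ladd, evL_cons, evL_ladd l m]; push_cast; ring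

theorem evL_smul (c : ℤ) (l : List ℤ) : evL (l.map (fun y => c * y)) x = (c : R) * evL l x := by
  induction l with
  | nil => simp
  | cons a l ih => simp only [List.map_cons, evL_cons, ih]; push_cast; ring

/-- product -/
def lmul : List ℤ → List ℤ → List ℤ
  | [], _ => []
  | a :: l, m => ladd (m.map (fun y => a * y)) (0 :: lmul l m)

theorem evL_lmul : ∀ l m : List ℤ, evL (lmul l m) x = evL l x * evL m x
  | [], m => by simp [lmul]
  | a :: l, m => by
    simp only [lmul, evL_ladd, evL_smul, evL_cons, evL_lmul l m]; push_cast; ring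

end ev

/-- all the entries are at most `M` in absolute value -/
def Bd (M : ℤ) (l : List ℤ) : Prop := ∀ c ∈ l, |c| ≤ M

theorem Bd.mono {M M' : ℤ} {l : List ℤ} (h : Bd M l) (hM : M ≤ M') : Bd M' l :=
  fun c hc => (h c hc).trans hM

theorem Bd.ladd : ∀ {l m : List ℤ} {M M' : ℤ}, 0 ≤ M → 0 ≤ M' → Bd M l → Bd M' m →
    Bd (M + M') (ladd l m)
  | [], m, M, M', h, _, _, h2 => by
    intro c hc; have := h2 c hc; linarith
  | a :: l, [], M, M', _, h', h1, _ => by
    intro c hc; have := h1 c hc; linarith
  | a :: l, b :: m, M, M', h, h', h1, h2 => by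
    intro c hc
    rw [ZU.ladd, List.mem_cons] at hc
    rcases hc with hc | hc
    · rw [hc]
      exact (abs_add_le a b).trans (add_le_add (h1 a (by simp)) (h2 b (by simp)))
    · exact Bd.ladd h h' (fun c hc => h1 c (by simp [hc])) (fun c hc => h2 c (by simp [hc])) c hc

theorem Bd.smul {l : List ℤ} {M : ℤ} (a A : ℤ) (hA : |a| ≤ A) (hM : 0 ≤ M) (h : Bd M l) :
    Bd (A * M) (l.map (fun y => a * y)) := by
  intro c hc
  rw [List.mem_map] at hc
  obtain ⟨y, hy, rfl⟩ := hc
  rw [abs_mul]
  exact mul_le_mul hA (h y hy) (abs_nonneg _) ((abs_nonneg _).trans hA)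

theorem Bd.lmul : ∀ {l m : List ℤ} {M M' : ℤ}, 0 ≤ M → 0 ≤ M' → Bd M l → Bd M' m →
    Bd (l.length * (M * M')) (lmul l m)
  | [], m, M, M', _, _, _, _ => by intro c hc; simp [ZU.lmul] at hc
  | a :: l, m, M, M', h, h', h1, h2 => by
    have e1 : Bd (M * M') (m.map (fun y => a * y)) := Bd.smul a M (h1 a (by simp)) h' h2
    have e2 : Bd (l.length * (M * M')) (0 :: ZU.lmul l m) := by
      intro c hc
      rw [List.mem_cons] at hc
      rcases hc with hc | hc
      · rw [hc, abs_zero]; positivity
      · exact Bd.lmul h h' (fun c hc => h1 c (by simp [hc])) h2 c hc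
    have e3 := Bd.ladd (by positivity) (by positivity) e1 e2
    refine Bd.mono e3 (le_of_eq ?_)
    rw [List.length_cons]; push_cast; ring

/-- sum of the absolute values -/
def N1 (l : List ℤ) : ℤ := l.foldr (fun a s => |a| + s) 0

@[simp] theorem N1_nil : N1 [] = 0 := rfl
@[simp] theorem N1_cons (a : ℤ) (l : List ℤ) : N1 (a :: l) = |a| + N1 l := rfl

theorem N1_nonneg (l : List ℤ) : 0 ≤ N1 l := by
  induction l with
  | nil => simp
  | cons a l ih => rw [N1_cons]; positivity

theorem N1_Bd (l : List ℤ) : Bd (N1 l) l := by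
  induction l with
  | nil => intro c hc; simp at hc
  | cons a l ih =>
    intro c hc
    rw [List.mem_cons] at hc
    rw [N1_cons]
    rcases hc with hc | hc
    · rw [hc]; have := N1_nonneg l; linarith
    · have := ih c hc; have := abs_nonneg a; linarith

theorem N1_ladd : ∀ l m : List ℤ, N1 (ladd l m) ≤ N1 l + N1 m
  | [], m => by simp [ladd]
  | a :: l, [] => by simp [ladd]
  | a :: l, b :: m => by
    rw [ladd, N1_cons, N1_cons, N1_cons]
    have := N1_ladd l m; have := abs_add_le a b; linarith

theorem N1_smul (c : ℤ) (l : List ℤ) : N1 (l.map (fun y => c * y)) = |c| * N1 l := by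
  induction l with
  | nil => simp
  | cons a l ih => rw [List.map_cons, N1_cons, N1_cons, ih, abs_mul]; ring

theorem N1_lmul : ∀ l m : List ℤ, N1 (lmul l m) ≤ N1 l * N1 m
  | [], m => by simp [lmul]
  | a :: l, m => by
    rw [lmul, N1_cons]
    have h1 := N1_ladd (m.map (fun y => a * y)) (0 :: lmul l m)
    rw [N1_smul, N1_cons, abs_zero, zero_add] at h1
    have := N1_lmul l m
    linarith

/-! ## uniqueness -/

theorem ev_zero {R : Type*} [CommRing R] (x : R) (X : ℤ) :
    ∀ l : List ℤ, (∀ c ∈ l, |c| < X) → evL l X = 0 → evL l x = 0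
  | [], _, _ => rfl
  | a :: l, h, h0 => by
    have ha : |a| < X := h a (by simp)
    have hX : 0 < X := lt_of_le_of_lt (abs_nonneg a) ha
    rw [evL_cons] at h0
    have h0' : a + X * evL l X = 0 := by simpa using h0
    have hd : X ∣ a := by
      have : a = X * (- evL l X) := by linarith
      exact ⟨_, this⟩
    have ha0 : a = 0 := Int.eq_zero_of_abs_lt_dvd hd ha
    have h1 : evL l X = 0 := by
      rw [ha0, zero_add] at h0'
      rcases mul_eq_zero.mp h0' with h | h
      · omega
      · exact h
    rw [evL_cons, ha0, ev_zero x X l (fun c hc => h c (by simp [hc])) h1]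
    simp

theorem ev_uniq {R : Type*} [CommRing R] (x : R) (X M M' : ℤ) (l m : List ℤ) (h : 0 ≤ M)
    (h' : 0 ≤ M') (h1 : Bd M l) (h2 : Bd M' m) (hX : M + M' < X) (he : evL l X = evL m X) :
    evL l x = evL m x := by
  have e1 : Bd (1 * M') (m.map (fun y => (-1) * y)) := Bd.smul (-1) 1 (by simp) h' h2
  rw [one_mul] at e1
  have e2 := Bd.ladd h h' h1 e1
  have e3 := ev_zero x X (ladd l (m.map (fun y => (-1) * y)))
    (fun c hc => lt_of_le_of_lt (e2 c hc) hX) (by
      rw [evL_ladd, evL_smul, he]; push_cast; ring)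
  rw [evL_ladd, evL_smul] at e3
  push_cast at e3
  linear_combination e3

end Pool.H1.ZU
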