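import Pool.Agent.H1.ZU.Ana

/-! What a successful run gives. -/

open Metric

namespace Pool.H1.ZU

theorem bumpN_length (m : ℕ) : ∀ (n : ℕ) (l : List ℕ), (bumpN m n l).length = l.length
  | _, [] => by simp [bumpN]
  | 0, a :: l => by simp [bumpN]
  | n + 1, a :: l => by simp [bumpN, bumpN_length m n l]

theorem bumpN_mem (m : ℕ) : ∀ (n : ℕ) (l : List ℕ), ∀ x ∈ bumpN m n l,
    ∃ y ∈ l, y ≤ x ∧ x ≤ y + m
  | _, [], x, h => by simp [bumpN] at h
  | 0, a :: l, x, h => by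
    rw [bumpN, List.mem_cons] at h
    rcases h with h | h
    · exact ⟨a, by simp, by rw [h]; exact Nat.le_add_right a m, le_of_eq h⟩
    · exact ⟨x, by simp [h], le_rfl, Nat.le_add_right x m⟩
  | n + 1, a :: l, x, h => by
    rw [bumpN, List.mem_cons] at h
    rcases h with h | h
    · exact ⟨a, by simp, by rw [h], by rw [h]; exact Nat.le_add_right a m⟩
    · obtain ⟨y, hy, h1, h2⟩ := bumpN_mem m n l x h
      exact ⟨y, by simp [hy], h1, h2⟩

theorem sg_cons (o a : ℕ) (l : List ℕ) : sg o (a :: l) = ((a : ℤ) - (o : ℤ)) :: sg o l := rfl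

theorem evL_bumpN (o m : ℕ) (z : ℂ) : ∀ (n : ℕ) (l : List ℕ), n < l.length →
    evL (sg o (bumpN m n l)) z = evL (sg o l) z + m * z ^ n
  | _, [], h => by simp at h
  | 0, a :: l, _ => by
    have e : bumpN m 0 (a :: l) = (a + m) :: l := rfl
    rw [e, sg_cons, sg_cons, evL_cons, evL_cons]; push_cast; ring
  | n + 1, a :: l, h => by
    have h' : n < l.length := by simpa using h
    have e : bumpN m (n + 1) (a :: l) = a :: bumpN m n l := rfl
    rw [e, sg_cons, sg_cons, evL_cons, evL_cons, evL_bumpN o m z n l h']; ring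

theorem shr_cons (e a : ℕ) (l : List ℕ) : shr e (a :: l) = (a / 2 ^ e) :: shr e l := by
  have : Nat.shiftRight a e = a / 2 ^ e := Nat.shiftRight_eq_div_pow a e
  rw [shr, List.map_cons, this]; rfl

theorem shr_length (e : ℕ) (l : List ℕ) : (shr e l).length = l.length := by simp [shr]

theorem floor_norm (u e : ℕ) {z : ℂ} (hz : ‖z‖ = 1) : ∀ D : List ℕ,
    ‖evL (sg (2 ^ (u + e)) D) z - 2 ^ e * evL (sg (2 ^ u) (shr e D)) z‖ ≤ 2 ^ e * D.length
  | [] => by simp [sg, shr]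
  | a :: D => by
    have ih := floor_norm u e hz D
    rw [shr_cons, sg_cons, sg_cons, evL_cons, evL_cons, List.length_cons]
    have hdm := Nat.div_add_mod a (2 ^ e)
    have hlt := Nat.mod_lt a (show 0 < 2 ^ e by positivity)
    generalize a / 2 ^ e = q at hdm ⊢
    generalize a % 2 ^ e = r at hdm hlt
    subst hdm
    have key : (((2 ^ e * q + r : ℕ) - ((2 ^ (u + e) : ℕ) : ℤ) : ℤ) : ℂ) +
        z * evL (sg (2 ^ (u + e)) D) z -
        2 ^ e * (((q - ((2 ^ u : ℕ) : ℤ) : ℤ) : ℂ) + z * evL (sg (2 ^ u) (shr e D)) z) =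
        (r : ℂ) + z * (evL (sg (2 ^ (u + e)) D) z -
          2 ^ e * evL (sg (2 ^ u) (shr e D)) z) := by
      push_cast
      rw [pow_add]; ring
    rw [key]
    refine (norm_add_le _ _).trans ?_
    rw [norm_mul, hz, one_mul, Complex.norm_natCast]
    have h2 : (r : ℝ) ≤ 2 ^ e := by exact_mod_cast hlt.le
    push_cast
    linarith

theorem floor_T (u e d : ℕ) (D : List ℕ) (hD : D.length = 2 * d + 1) {z : ℂ} (hz : ‖z‖ = 1) :
    T d (sg (2 ^ (u + e)) D) z ≤ 2 ^ e * T d (sg (2 ^ u) (bumpN (2 * d + 1) d (shr e D))) z := by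
  have h0 := norm_inv_eq hz
  have h1 : T d (sg (2 ^ u) (bumpN (2 * d + 1) d (shr e D))) z =
      T d (sg (2 ^ u) (shr e D)) z + (2 * d + 1) := by
    rw [T, evL_bumpN _ _ _ _ _ (by rw [shr_length, hD]; omega), mul_add, Complex.add_re, ← T]
    congr 1
    have e1 : (z⁻¹) ^ d * (((2 * d + 1 : ℕ) : ℂ) * z ^ d) = ((2 * d + 1 : ℕ) : ℂ) := by
      have : (z⁻¹) ^ d * z ^ d = 1 := by rw [← mul_pow, inv_mul_cancel₀ h0, one_pow]
      linear_combination ((2 * d + 1 : ℕ) : ℂ) * this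
    rw [e1, Complex.natCast_re]; push_cast; ring
  rw [h1]
  have h2 := floor_norm u e hz D
  have h3 : T d (sg (2 ^ (u + e)) D) z - 2 ^ e * T d (sg (2 ^ u) (shr e D)) z =
      ((z⁻¹) ^ d * (evL (sg (2 ^ (u + e)) D) z - 2 ^ e * evL (sg (2 ^ u) (shr e D)) z)).re := by
    rw [T, T, mul_sub, Complex.sub_re]
    congr 1
    have : (z⁻¹) ^ d * (2 ^ e * evL (sg (2 ^ u) (shr e D)) z) =
        ((2 ^ e : ℝ) : ℂ) * ((z⁻¹) ^ d * evL (sg (2 ^ u) (shr e D)) z) := by push_cast; ring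
    rw [this, Complex.re_ofReal_mul]
  have h4 : T d (sg (2 ^ (u + e)) D) z - 2 ^ e * T d (sg (2 ^ u) (shr e D)) z ≤
      2 ^ e * (2 * d + 1) := by
    rw [h3]
    refine (Complex.re_le_norm _).trans ?_
    rw [norm_mul, norm_pow, norm_inv, hz, inv_one, one_pow, one_mul]
    refine h2.trans (le_of_eq ?_)
    rw [hD]; push_cast; ring
  linarith

theorem fin_sem (n w u d e NN : ℕ) (k : List ℕ → Bool) (h : finN n w u d e NN k = true) :
    ∃ D a : List ℕ, evN (2 ^ w) D = NN ∧ D.length = 2 * d + 1 ∧ (∀ x ∈ D, x < 2 ^ (u + e + 1)) ∧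
      a.length = 2 * d + 1 ∧ a.reverse = a ∧ Bd (2 ^ u + (2 * d + 1)) (sg (2 ^ u) a) ∧
      (∀ z : ℂ, ‖z‖ = 1 → T d (sg (2 ^ (u + e)) D) z ≤ 2 ^ e * T d (sg (2 ^ u) a) z) ∧
      k a = true := by
  obtain ⟨D, h1, h2, h3, h4, h5⟩ := finN_spec n w u d e NN k h
  refine ⟨D, _, h1, h2, h3, ?_, h4, ?_, fun z hz => floor_T u e d D h2 hz, h5⟩
  · rw [bumpN_length, shr_length, h2]
  · intro c hc
    rw [sg, List.mem_map] at hc
    obtain ⟨y, hy, rfl⟩ := hc
    obtain ⟨y', hy', hy1, hy2⟩ := bumpN_mem _ _ _ y hy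
    have h6 : y' < 2 ^ (u + 1) := by
      rw [shr, List.mem_map] at hy'
      obtain ⟨x, hx, rfl⟩ := hy'
      have : Nat.shiftRight x e = x / 2 ^ e := Nat.shiftRight_eq_div_pow x e
      rw [this]
      apply Nat.div_lt_of_lt_mul
      rw [← pow_add, show e + (u + 1) = u + e + 1 by ring]
      exact h3 x hx
    rw [pow_succ] at h6
    have h7 : (y : ℤ) ≤ y' + (2 * d + 1) := by exact_mod_cast hy2
    have h8 : (y' : ℤ) < 2 ^ u * 2 := by exact_mod_cast h6
    have h9 : (0 : ℤ) ≤ y := by positivity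
    rw [abs_le]; push_cast
    constructor <;> linarith

/-- the bound of a run -/
noncomputable def bnd (v : ℕ) : List ℕ → ℝ
  | [] => v
  | e :: es => (e + bnd v es) / 2

theorem run_spec (n w u d v Re Ro R2 : ℕ) (hd : Even d) (hRe : Re = evN (2 ^ w) (rep (d + 1)))
    (hRo : Ro = evN (2 ^ w) (rep d)) (hR2 : R2 = evN (2 ^ w) (rep (2 * d + 1))) :
    ∀ (es a : List ℕ), a.length = 2 * d + 1 → a.reverse = a →
      Bd (2 ^ u + (2 * d + 1)) (sg (2 ^ u) a) → Pos d (sg (2 ^ u) a) →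
      runN n w u d v Re Ro R2 es a = true → J d (sg (2 ^ u) a) ≤ bnd v es * Real.log 2
  | [], a, hl, _, _, hp, h => by
    have hd1 : d < (sg (2 ^ u) a).length := by rw [sg_length, hl]; omega
    refine last_le hd1 hp v ?_
    have h1 := Nat.le_of_ble_eq_true h
    rw [one_shl, one_shl] at h1
    have h2 : a.getD d 0 = a[d]'(by omega) := by
      rw [List.getD_eq_getElem?_getD, List.getElem?_eq_getElem (by omega), Option.getD_some]
    rw [h2] at h1
    change a[d]'(by omega) ≤ 2 ^ u + 2 ^ v at h1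
    have h3 : (sg (2 ^ u) a)[d] = ((a[d]'(by omega) : ℕ) : ℤ) - ((2 ^ u : ℕ) : ℤ) := by
      simp [sg]
    rw [h3]
    have h4 : ((a[d]'(by omega) : ℕ) : ℤ) ≤ 2 ^ u + 2 ^ v := by exact_mod_cast h1
    push_cast
    linarith
  | e :: es, a, hl, hs, hb, hp, h => by
    rw [runN, Bool.and_eq_true] at h
    obtain ⟨h1, h2⟩ := h
    rw [forceN_eq, forceN_eq, forceN_eq, Bool.and_eq_true] at h2
    obtain ⟨h3, h4⟩ := h2
    have hw := Nat.le_of_ble_eq_true h1
    rw [one_shl, one_shl, one_shl] at hw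
    have hw' : (2 * d + 1) * (2 ^ u + (2 * d + 1)) ^ 2 + 2 ^ (u + e) < (2 : ℤ) ^ w := by
      exact_mod_cast (Nat.succ_le_iff.mp hw)
    obtain ⟨D, a', g1, g2, g3, g4, g5, g6, g7, g8⟩ := fin_sem _ _ _ _ _ _ _ h4
    have h3' := Nat.le_of_ble_eq_true h3
    have shl : ∀ x s : ℕ, Nat.shiftLeft x s = x * 2 ^ s := fun x s => Nat.shiftLeft_eq x s
    simp only [shl] at h3' g1
    have g1' : (evN (2 ^ w) D : ℤ) =
        (evN (2 ^ w) (evens a) - 2 ^ u * evN (2 ^ w) (rep (d + 1))) ^ 2 +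
        2 ^ (u + e) * evN (2 ^ w) (rep (2 * d + 1)) -
        2 ^ w * (evN (2 ^ w) (odds a) - 2 ^ u * evN (2 ^ w) (rep d)) ^ 2 := by
      have e1 := sqd_eq (pkN n w (evens a)) (Re * 2 ^ u)
      have e2 := sqd_eq (pkN n w (odds a)) (Ro * 2 ^ u)
      rw [pkN_eq] at e1 e2
      have e3 : ∀ x y : ℕ, y ≤ x → ((Nat.sub x y : ℕ) : ℤ) = (x : ℤ) - (y : ℤ) :=
        fun x y h => Int.ofNat_sub h
      rw [g1, e3 _ _ h3']
      have e4 : ∀ x y : ℕ, ((Nat.add x y : ℕ) : ℤ) = (x : ℤ) + (y : ℤ) := fun x y => by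
        change ((x + y : ℕ) : ℤ) = _
        push_cast; ring
      rw [e4]
      push_cast
      rw [pkN_eq, pkN_eq, e1, e2, ← hRe, ← hRo, ← hR2]
      push_cast
      ring
    have hex := fun (z : ℂ) => graeffe_digits w u d e a D hl hb hw' g2 g3 g1' z
    have hs' : (sg (2 ^ u) a).reverse = sg (2 ^ u) a := by
      rw [sg, ← List.map_reverse, hs]
    obtain ⟨p1, p2⟩ := step_exact hd (by rw [sg_length, hl]) hs' hex hp
    obtain ⟨p3, p4⟩ := step_le e p1 g7
    have ih := run_spec n w u d v Re Ro R2 hd hRe hRo hR2 es a' g4 g5 g6 p3 g8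
    rw [bnd]
    linarith

end Pool.H1.ZU
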