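import Pool.Agent.H1.ZU.Def
import Pool.Agent.H38.ZZ.Def2

/-! Statements of the modules M4 - M6 of the upper side. -/

open Polynomial

namespace Pool.H1.ZU

/-- M4a: from an integer polynomial in `t` to an algebraic number -/
def S_ALPHA : Prop := ∀ (q : ℤ[X]) (n : ℕ), 0 < n → q.natDegree = n → ∀ L : ℝ,
  Real.log ((q.comp (X - X ^ 2)).map (Int.castRingHom ℂ)).mahlerMeasure ≤ L * n →
  ∀ A : Finset ℂ, (∀ a ∈ A, aeval a q ≠ 0) →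
  ∃ α : ℂ, IsAlgebraic ℚ α ∧ H38.ZZ.zzHeight α ≤ L ∧ α - α ^ 2 ∉ A

/-- M4b: Mahler measure against a majorant on the circle -/
def S_MAH : Prop := ∀ (q : ℤ[X]), q ≠ 0 → ∀ U : ℂ → ℝ, ContinuousOn U (Metric.sphere 0 1) →
  (∀ z : ℂ, ‖z‖ = 1 → 0 < U z) → (∀ z : ℂ, ‖z‖ = 1 → ‖ev (ri q) z‖ ≤ U z) →
  Real.log ((q.comp (X - X ^ 2)).map (Int.castRingHom ℂ)).mahlerMeasure ≤
    Real.circleAverage (fun z => Real.log (U z)) 0 1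

/-- M5a: upper bound of a logarithmic integral with a multiplier `B` (Jensen, Parseval) -/
def S_JEN : Prop := ∀ A C B : ℤ[X], B.coeff 0 ≠ 0 →
  (∀ z : ℂ, ‖z‖ = 1 → 0 < ‖aeval z A‖ ^ 2 + ‖aeval z C‖ ^ 2) →
  Real.circleAverage (fun z => Real.log (‖aeval z A‖ ^ 2 + ‖aeval z C‖ ^ 2)) 0 1 ≤
    Real.log ((∑ i ∈ Finset.range ((A * B).natDegree + 1), ((A * B).coeff i : ℝ) ^ 2) +
      ∑ i ∈ Finset.range ((C * B).natDegree + 1), ((C * B).coeff i : ℝ) ^ 2)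
    - 2 * Real.log |(B.coeff 0 : ℝ)|

/-- M6: the theorem from real data; `G = g / Q` -/
def S_INF : Prop := ∀ (a b c k : ℕ), 0 < k → a + b + 4 * c ≤ k → ∀ (G : ℝ[X]), G.natDegree = k →
  1 ≤ |G.leadingCoeff| → 1 ≤ |G.eval 0| → 1 ≤ |G.eval 1| → 1 ≤ ‖aeval b1 G‖ * ‖aeval b3 G‖ →
  ∀ L : ℝ, Real.circleAverage (fun z => Real.log (‖ev (ri (X ^ a * (X - 1) ^ b * N10 ^ c)) z‖ ^ 2 +
    ‖ev G z‖ ^ 2)) 0 1 < 2 * L * k →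
  Set.Infinite {α : ℂ | IsAlgebraic ℚ α ∧ H38.ZZ.zzHeight α ≤ L}

end Pool.H1.ZU
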