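import Pool.Agent.H1.ZU.Run

/-! The start of the run: from the polynomials to the first list, and the whole check. -/

open Metric

namespace Pool.H1.ZU

/-- evaluate an integer before use -/
def forceZ {α : Type} (x : ℤ) (k : ℤ → α) : α :=
  match x with
  | Int.ofNat n => forceN n (fun m => k (Int.ofNat m))
  | Int.negSucc n => forceN n (fun m => k (Int.negSucc m))

theorem forceZ_eq {α : Type} (x : ℤ) (k : ℤ → α) : forceZ x k = k x := by
  cases x <;> rw [forceZ, forceN_eq]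

/-- value at an integer of the digits with the offset removed -/
def evZ (o : ℤ) (t : ℤ) (l : List ℕ) : ℤ := l.foldr (fun x r => (Int.ofNat x - o) + t * r) 0

theorem evZ_eq (o : ℕ) (t : ℤ) (l : List ℕ) : evZ o t l = evL (sg o l) t := by
  induction l with
  | nil => rfl
  | cons a l ih =>
    have e : evZ o t (a :: l) = (Int.ofNat a - o) + t * evZ o t l := rfl
    rw [e, ih, sg_cons, evL_cons]
    simp

/-- read the digits of `N` -/
def digZ (n w u len : ℕ) (N : ℤ) (Rl : ℕ) (k : List ℕ → Bool) : Bool :=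
  forceZ (N + Int.ofNat (Nat.shiftLeft Rl u)) (fun F =>
    decide (0 ≤ F) && forceLN (unpN n (Nat.shiftLeft w (Nat.pred n)) (Int.toNat F) []) (fun D =>
      Nat.beq (pkN n w D) (Int.toNat F) && (Nat.beq D.length len &&
        (allLt (Nat.shiftLeft 1 (u + 1)) D && k D))))

theorem digZ_spec (n w u len : ℕ) (N : ℤ) (Rl : ℕ) (k : List ℕ → Bool)
    (hR : Rl = evN (2 ^ w) (rep len)) (h : digZ n w u len N Rl k = true) :
    ∃ D : List ℕ, evL (sg (2 ^ u) D) ((2 ^ w : ℕ) : ℤ) = N ∧ D.length = len ∧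
      Bd (2 ^ u) (sg (2 ^ u) D) ∧ k D = true := by
  rw [digZ, forceZ_eq, Bool.and_eq_true, forceLN_eq] at h
  simp only [Bool.and_eq_true] at h
  obtain ⟨h0, h1, h2, h3, h4⟩ := h
  have h0' := of_decide_eq_true h0
  have h1' := Nat.eq_of_beq_eq_true h1
  have h2' := Nat.eq_of_beq_eq_true h2
  rw [one_shl] at h3
  have h3' := allLt_spec _ _ h3
  rw [pkN_eq] at h1'
  have shl : ∀ x s : ℕ, Nat.shiftLeft x s = x * 2 ^ s := fun x s => Nat.shiftLeft_eq x s
  refine ⟨_, ?_, h2', ?_, h4⟩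
  · rw [evL_sg, h1', Int.toNat_of_nonneg h0', h2', ← hR, shl]
    push_cast
    have : Int.ofNat (Rl * 2 ^ u) = (Rl : ℤ) * 2 ^ u := by
      rw [Int.ofNat_eq_natCast]; push_cast; ring
    rw [this]; ring
  · intro c hc
    rw [sg, List.mem_map] at hc
    obtain ⟨y, hy, rfl⟩ := hc
    have h6 := h3' y hy
    rw [pow_succ] at h6
    have h7 : (y : ℤ) < 2 ^ u * 2 := by exact_mod_cast h6
    have h9 : (0 : ℤ) ≤ y := by positivity
    rw [abs_le]; push_cast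
    constructor <;> linarith

/-! ### the lists of the two polynomials -/

/-- composition with `z - z ^ 2` -/
def compL (l : List ℤ) : List ℤ := l.foldr (fun a r => ladd [a] (lmul [0, 1, -1] r)) []

theorem compL_cons (a : ℤ) (l : List ℤ) :
    compL (a :: l) = ladd [a] (lmul [0, 1, -1] (compL l)) := rfl

theorem evL_compL {R : Type*} [CommRing R] (x : R) (l : List ℤ) :
    evL (compL l) x = evL l (x - x ^ 2) := by
  induction l with
  | nil => rfl
  | cons a l ih =>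
    rw [compL_cons, evL_ladd, evL_lmul, ih, evL_cons]
    simp only [evL_cons, evL_nil]; push_cast; ring

theorem N1_compL (B : ℤ) (l : List ℤ) (h : Bd B l) :
    N1 (compL l) ≤ B * (2 ^ l.length - 1) := by
  induction l with
  | nil => simp [compL]
  | cons a l ih =>
    have h1 := ih (fun c hc => h c (by simp [hc]))
    have h2 : |a| ≤ B := h a (by simp)
    rw [compL_cons]
    refine (N1_ladd _ _).trans ?_
    have h3 := N1_lmul [0, 1, -1] (compL l)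
    have e1 : N1 [0, 1, -1] = 2 := by simp
    have e2 : N1 [a] = |a| := by simp
    rw [e1] at h3
    rw [e2, List.length_cons, pow_succ]
    linarith

/-- power -/
def lpow (l : List ℤ) : ℕ → List ℤ
  | 0 => [1]
  | n + 1 => lmul l (lpow l n)

theorem evL_lpow {R : Type*} [CommRing R] (x : R) (l : List ℤ) : ∀ n, evL (lpow l n) x = evL l x ^ n
  | 0 => by simp [lpow]
  | n + 1 => by rw [lpow, evL_lmul, evL_lpow x l n, pow_succ]; ring

theorem N1_lpow (l : List ℤ) : ∀ n, N1 (lpow l n) ≤ N1 l ^ n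
  | 0 => by simp [lpow]
  | n + 1 => by
    rw [lpow, pow_succ, mul_comm]
    exact (N1_lmul _ _).trans (mul_le_mul_of_nonneg_left (N1_lpow l n) (N1_nonneg l))

/-- list of `2 ^ P t ^ a (t - 1) ^ b N10(t) ^ c`, `t = z - z ^ 2` -/
def sL (P a b c : ℕ) : List ℤ := lmul [2 ^ P] (lmul (lpow [0, 1, -1] a)
  (lmul (lpow [-1, 1, -1] b) (lpow [1, -3, 7, -10, 11, -10, 8, -4, 1] c)))

theorem evL_sL {R : Type*} [CommRing R] (x : R) (P a b c : ℕ) :
    evL (sL P a b c) x = 2 ^ P * (x - x ^ 2) ^ a * (x - x ^ 2 - 1) ^ b *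
      ((x - x ^ 2) ^ 4 - 2 * (x - x ^ 2) ^ 3 + 4 * (x - x ^ 2) ^ 2 - 3 * (x - x ^ 2) + 1) ^ c := by
  have e1 : evL [0, 1, -1] x = x - x ^ 2 := by
    simp only [evL_cons, evL_nil]; push_cast; ring
  have e2 : evL [-1, 1, -1] x = x - x ^ 2 - 1 := by
    simp only [evL_cons, evL_nil]; push_cast; ring
  have e3 : evL [1, -3, 7, -10, 11, -10, 8, -4, 1] x =
      (x - x ^ 2) ^ 4 - 2 * (x - x ^ 2) ^ 3 + 4 * (x - x ^ 2) ^ 2 - 3 * (x - x ^ 2) + 1 := by
    simp only [evL_cons, evL_nil]; push_cast; ring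
  rw [sL, evL_lmul, evL_lmul, evL_lmul, evL_lpow, evL_lpow, evL_lpow, e1, e2, e3]
  simp only [evL_cons, evL_nil]; push_cast; ring

theorem N1_sL (P a b c : ℕ) : N1 (sL P a b c) ≤ 2 ^ P * 2 ^ a * 3 ^ b * 55 ^ c := by
  have h1 := N1_lpow [0, 1, -1] a
  have h2 := N1_lpow [-1, 1, -1] b
  have h3 := N1_lpow [1, -3, 7, -10, 11, -10, 8, -4, 1] c
  have e1 : N1 [0, 1, -1] = 2 := by simp
  have e2 : N1 [-1, 1, -1] = 3 := by simp
  have e3 : N1 [1, -3, 7, -10, 11, -10, 8, -4, 1] = 55 := by simp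
  have e4 : N1 [2 ^ P] = 2 ^ P := by simp
  rw [e1] at h1; rw [e2] at h2; rw [e3] at h3
  have p1 := N1_nonneg (lpow [0, 1, -1] a)
  have p2 := N1_nonneg (lpow [-1, 1, -1] b)
  have p3 := N1_nonneg (lpow [1, -3, 7, -10, 11, -10, 8, -4, 1] c)
  have q2 := (N1_lmul (lpow [-1, 1, -1] b) (lpow [1, -3, 7, -10, 11, -10, 8, -4, 1] c)).trans
    (mul_le_mul h2 h3 p3 (by positivity))
  have p4 := N1_nonneg (lmul (lpow [-1, 1, -1] b) (lpow [1, -3, 7, -10, 11, -10, 8, -4, 1] c))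
  have q1 := (N1_lmul (lpow [0, 1, -1] a) _).trans (mul_le_mul h1 q2 p4 (by positivity))
  rw [sL]
  refine (N1_lmul _ _).trans ?_
  rw [e4]
  calc _ ≤ (2 : ℤ) ^ P * (2 ^ a * (3 ^ b * 55 ^ c)) :=
        mul_le_mul_of_nonneg_left q1 (by positivity)
    _ = _ := by ring

/-! ### the first list -/

/-- start of the run -/
def run0 (n w u d v Re Ro R2 uA uC e0 : ℕ) (es : List ℕ) (NA NC : ℤ) (A C : List ℕ) : Bool :=
  Nat.ble (Nat.succ ((d + 1) * ((Nat.shiftLeft 1 uA) ^ 2 + (Nat.shiftLeft 1 uC) ^ 2) +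
    Nat.shiftLeft 1 (u + e0))) (Nat.shiftLeft 1 w) &&
  forceZ (NA * (Int.ofNat (pkN n w A.reverse) - Int.ofNat (Nat.shiftLeft Re uA)) +
    NC * (Int.ofNat (pkN n w C.reverse) - Int.ofNat (Nat.shiftLeft Re uC)) +
    Int.ofNat (Nat.shiftLeft R2 (u + e0))) (fun F =>
  decide (0 ≤ F) && finN n w u d e0 (Int.toNat F) (fun a => runN n w u d v Re Ro R2 es a))

theorem run0_spec (n w u d v Re Ro R2 uA uC e0 : ℕ) (es : List ℕ) (NA NC : ℤ) (A C : List ℕ)
    (hd : Even d) (hRe : Re = evN (2 ^ w) (rep (d + 1)))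
    (hRo : Ro = evN (2 ^ w) (rep d)) (hR2 : R2 = evN (2 ^ w) (rep (2 * d + 1)))
    (hA : evL (sg (2 ^ uA) A) ((2 ^ w : ℕ) : ℤ) = NA) (hC : evL (sg (2 ^ uC) C) ((2 ^ w : ℕ) : ℤ) = NC)
    (lA : A.length = d + 1) (lC : C.length = d + 1) (bA : Bd (2 ^ uA) (sg (2 ^ uA) A))
    (bC : Bd (2 ^ uC) (sg (2 ^ uC) C))
    (hpos : ∀ z : ℂ, ‖z‖ = 1 → 0 < ‖evL (sg (2 ^ uA) A) z‖ ^ 2 + ‖evL (sg (2 ^ uC) C) z‖ ^ 2)
    (h : run0 n w u d v Re Ro R2 uA uC e0 es NA NC A C = true) :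
    Real.circleAverage (fun z => Real.log (‖evL (sg (2 ^ uA) A) z‖ ^ 2 +
      ‖evL (sg (2 ^ uC) C) z‖ ^ 2)) 0 1 ≤ (e0 + bnd v es) * Real.log 2 := by
  rw [run0, forceZ_eq, Bool.and_eq_true, Bool.and_eq_true] at h
  obtain ⟨h1, h2, h3⟩ := h
  have h1' := Nat.le_of_ble_eq_true h1
  have h2' := of_decide_eq_true h2
  rw [one_shl, one_shl, one_shl, one_shl] at h1'
  have hw : (d + 1) * ((2 ^ uA) ^ 2 + (2 ^ uC) ^ 2) + 2 ^ (u + e0) < (2 : ℤ) ^ w := by
    exact_mod_cast (Nat.succ_le_iff.mp h1')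
  obtain ⟨D, a, g1, g2, g3, g4, g5, g6, g7, g8⟩ := fin_sem _ _ _ _ _ _ _ h3
  have shl : ∀ x s : ℕ, Nat.shiftLeft x s = x * 2 ^ s := fun x s => Nat.shiftLeft_eq x s
  have revA : (sg (2 ^ uA) A).reverse = sg (2 ^ uA) A.reverse := by rw [sg, sg, List.map_reverse]
  have revC : (sg (2 ^ uC) C).reverse = sg (2 ^ uC) C.reverse := by rw [sg, sg, List.map_reverse]
  set LA := sg (2 ^ uA) A with hLA
  set LC := sg (2 ^ uC) C with hLC
  have lLA : LA.length = d + 1 := by rw [hLA, sg_length, lA]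
  have lLC : LC.length = d + 1 := by rw [hLC, sg_length, lC]
  have bLAr : Bd (2 ^ uA) LA.reverse := fun c hc => bA c (List.mem_reverse.mp hc)
  have bLCr : Bd (2 ^ uC) LC.reverse := fun c hc => bC c (List.mem_reverse.mp hc)
  set L : List ℤ := ladd (lmul LA LA.reverse) (lmul LC LC.reverse) with hL
  have bL : Bd ((d + 1) * (2 ^ uA * 2 ^ uA) + (d + 1) * (2 ^ uC * 2 ^ uC)) L := by
    have q1 := Bd.lmul (by positivity) (by positivity) bA bLAr
    have q2 := Bd.lmul (by positivity) (by positivity) bC bLCr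
    rw [lLA] at q1; rw [lLC] at q2
    push_cast at q1 q2
    exact Bd.ladd (by positivity) (by positivity) q1 q2
  have bD : Bd (2 ^ (u + e0)) (sg (2 ^ (u + e0)) D) := by
    intro c hc
    rw [sg, List.mem_map] at hc
    obtain ⟨y, hy, rfl⟩ := hc
    have h1 := g3 y hy
    have h2 : (y : ℤ) < 2 ^ (u + e0 + 1) := by exact_mod_cast h1
    rw [pow_succ] at h2
    have h9 : (0 : ℤ) ≤ y := by positivity
    rw [abs_le]; push_cast
    constructor <;> linarith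
  have key : evL (sg (2 ^ (u + e0)) D) ((2 ^ w : ℕ) : ℤ) = evL L ((2 ^ w : ℕ) : ℤ) := by
    have g1' := congrArg (fun n : ℕ => (n : ℤ)) g1
    simp only [Int.toNat_of_nonneg h2'] at g1'
    rw [hL, evL_ladd, evL_lmul, evL_lmul, revA, revC, evL_sg, g1', hA, hC, evL_sg, evL_sg, g2,
      List.length_reverse, List.length_reverse, lA, lC, ← hRe, ← hR2, pkN_eq, pkN_eq, shl, shl, shl]
    simp only [Int.ofNat_eq_natCast]
    push_cast; ring
  have hid : ∀ z : ℂ, evL (sg (2 ^ (u + e0)) D) z = evL LA z * evL LA.reverse z +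
      evL LC z * evL LC.reverse z := by
    intro z
    have := ev_uniq z ((2 ^ w : ℕ) : ℤ) (2 ^ (u + e0))
      ((d + 1) * (2 ^ uA * 2 ^ uA) + (d + 1) * (2 ^ uC * 2 ^ uC)) (sg (2 ^ (u + e0)) D) L
      (by positivity) (by positivity) bD bL (by push_cast; linarith) key
    rw [this, hL, evL_ladd, evL_lmul, evL_lmul]
  have hT : ∀ z : ℂ, ‖z‖ = 1 → T d (sg (2 ^ (u + e0)) D) z = ‖evL LA z‖ ^ 2 + ‖evL LC z‖ ^ 2 := by
    intro z hz
    have h0 := norm_inv_eq hz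
    have e1 : (z⁻¹) ^ d * evL (sg (2 ^ (u + e0)) D) z =
        ((‖evL LA z‖ ^ 2 + ‖evL LC z‖ ^ 2 : ℝ) : ℂ) := by
      rw [hid, evL_mul_reverse hz LA d lLA, evL_mul_reverse hz LC d lLC]
      have : (z⁻¹) ^ d * z ^ d = 1 := by rw [← mul_pow, inv_mul_cancel₀ h0, one_pow]
      push_cast
      linear_combination ((‖evL LA z‖ : ℂ) ^ 2 + (‖evL LC z‖ : ℂ) ^ 2) * this
    rw [T, e1, Complex.ofReal_re]
  have hP : Pos d (sg (2 ^ (u + e0)) D) := by
    intro z hz; rw [hT z hz]; exact hpos z hz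
  obtain ⟨p3, p4⟩ := step_le e0 hP g7
  have h5 := run_spec n w u d v Re Ro R2 hd hRe hRo hR2 es a g4 g5 g6 p3 g8
  have h6 : Real.circleAverage (fun z => Real.log (‖evL LA z‖ ^ 2 + ‖evL LC z‖ ^ 2)) 0 1 =
      J d (sg (2 ^ (u + e0)) D) := by
    rw [J]
    refine Real.circleAverage_congr_sphere ?_
    intro z hz
    rw [abs_one] at hz
    have hz' : ‖z‖ = 1 := by simpa using hz
    simp only [hT z hz']
  rw [h6]
  linarith

/-- the whole check; `t0 = X - X ^ 2`, `X = 2 ^ w` -/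
def runAll (n w u k P a b c uA uC ug e0 v : ℕ) (es g : List ℕ) : Bool :=
  forceN (pkN n w (rep (2 * k + 1))) (fun Re => forceN (pkN n w (rep (2 * k))) (fun Ro =>
  forceN (pkN n w (rep (2 * (2 * k) + 1))) (fun R2 =>
  forceZ (Int.ofNat (Nat.shiftLeft 1 w) - Int.ofNat (Nat.shiftLeft 1 (2 * w))) (fun t =>
  forceZ (Int.ofNat (Nat.shiftLeft 1 P) * t ^ a * (t - 1) ^ b *
    (t ^ 4 - 2 * t ^ 3 + 4 * t ^ 2 - 3 * t + 1) ^ c) (fun NA =>
  forceZ (evZ (Int.ofNat (Nat.shiftLeft 1 ug)) t g) (fun NC =>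
  Nat.ble (Nat.succ (2 ^ P * 2 ^ a * 3 ^ b * 55 ^ c + Nat.shiftLeft 1 uA)) (Nat.shiftLeft 1 w) &&
  (Nat.ble (Nat.succ (Nat.shiftLeft 1 (ug + k + 1) + Nat.shiftLeft 1 uC)) (Nat.shiftLeft 1 w) &&
  (digZ n w uA (2 * k + 1) NA Re (fun A => digZ n w uC (2 * k + 1) NC Re (fun C =>
    run0 n w u (2 * k) v Re Ro R2 uA uC e0 es NA NC A C))))))))))

theorem runAll_spec (n w u k P a b c uA uC ug e0 v : ℕ) (es g : List ℕ)
    (hg : g.length = k + 1) (bg : Bd (2 ^ ug) (sg (2 ^ ug) g))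
    (hpos : ∀ z : ℂ, ‖z‖ = 1 → 0 < ‖evL (sL P a b c) z‖ ^ 2 +
      ‖evL (sg (2 ^ ug) g) (z - z ^ 2)‖ ^ 2)
    (h : runAll n w u k P a b c uA uC ug e0 v es g = true) :
    Real.circleAverage (fun z => Real.log (‖evL (sL P a b c) z‖ ^ 2 +
      ‖evL (sg (2 ^ ug) g) (z - z ^ 2)‖ ^ 2)) 0 1 ≤ (e0 + bnd v es) * Real.log 2 := by
  rw [runAll, forceN_eq, forceN_eq, forceN_eq, forceZ_eq, forceZ_eq, forceZ_eq,
    Bool.and_eq_true, Bool.and_eq_true] at h
  obtain ⟨h1, h2, h3⟩ := h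
  rw [pkN_eq, pkN_eq, pkN_eq] at h3
  obtain ⟨A, a1, a2, a3, h4⟩ := digZ_spec _ _ _ _ _ _ _ rfl h3
  obtain ⟨C, c1, c2, c3, h5⟩ := digZ_spec _ _ _ _ _ _ _ rfl h4
  have shl : ∀ x s : ℕ, Nat.shiftLeft x s = x * 2 ^ s := fun x s => Nat.shiftLeft_eq x s
  have eA : ∀ z : ℂ, evL (sg (2 ^ uA) A) z = evL (sL P a b c) z := by
    intro z
    have hb := (N1_Bd (sL P a b c)).mono (N1_sL P a b c)
    refine ev_uniq z ((2 ^ w : ℕ) : ℤ) (2 ^ uA) _ _ _ (by positivity) (by positivity) a3 hb ?_ ?_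
    · have := Nat.le_of_ble_eq_true h1
      rw [one_shl, one_shl] at this
      have h6 : ((2 ^ P * 2 ^ a * 3 ^ b * 55 ^ c + 2 ^ uA : ℕ) : ℤ) < ((2 ^ w : ℕ) : ℤ) := by
        exact_mod_cast (Nat.succ_le_iff.mp this)
      push_cast at h6 ⊢
      linarith
    · rw [a1, evL_sL, shl, shl, shl]
      simp only [Int.ofNat_eq_natCast]
      push_cast
      rw [show 2 * w = w + w by ring, pow_add]
      ring
  have eC : ∀ z : ℂ, evL (sg (2 ^ uC) C) z = evL (sg (2 ^ ug) g) (z - z ^ 2) := by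
    intro z
    have hn := N1_compL _ _ bg
    rw [sg_length, hg] at hn
    have hb := (N1_Bd (compL (sg (2 ^ ug) g))).mono hn
    have p2 : (1 : ℤ) ≤ 2 ^ (k + 1) := one_le_pow₀ (by norm_num)
    rw [← evL_compL]
    refine ev_uniq z ((2 ^ w : ℕ) : ℤ) (2 ^ uC) _ _ _ (by positivity)
      (mul_nonneg (by positivity) (by linarith)) c3 hb ?_ ?_
    · have := Nat.le_of_ble_eq_true h2
      rw [one_shl, one_shl, one_shl] at this
      have h6 : ((2 ^ (ug + k + 1) + 2 ^ uC : ℕ) : ℤ) < ((2 ^ w : ℕ) : ℤ) := by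
        exact_mod_cast (Nat.succ_le_iff.mp this)
      push_cast at h6 ⊢
      have e1 : (2 : ℤ) ^ (ug + k + 1) = 2 ^ ug * 2 ^ (k + 1) := by
        rw [← pow_add]; congr 1
      have p1 : (0 : ℤ) < 2 ^ ug := by positivity
      rw [e1] at h6
      nlinarith
    · rw [c1, evL_compL]
      have e2 : Int.ofNat (Nat.shiftLeft 1 ug) = ((2 ^ ug : ℕ) : ℤ) := by
        rw [one_shl]; rfl
      rw [e2, evZ_eq, shl, shl]
      simp only [Int.ofNat_eq_natCast]
      congr 1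
      push_cast
      rw [show 2 * w = w + w by ring, pow_add]
      ring
  have hd : Even (2 * k) := even_two_mul k
  have h7 := run0_spec n w u (2 * k) v _ _ _ uA uC e0 es _ _ A C hd rfl rfl rfl a1 c1 a2 c2 a3 c3
    (by intro z hz; rw [eA, eC]; exact hpos z hz) h5
  simp only [eA, eC] at h7
  exact h7

end Pool.H1.ZU
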